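import Pool.Agent.BC36.Split

/-!
# Finishing: the smaller child is embedded, the larger one is embedded at the final host
-/

namespace BC36
open Finset AE32

variable {V : Type*} [DecidableEq V] {R : V → V → Prop}

/-- (D1) finishing: the smaller child `B` is embedded on `UB` and the final host is `x`. -/
theorem finish (hT : Tour R) {q : ℕ → ℕ} (hq : ∀ s, q s + 1 ≤ q (s + 1)) {A B : BT} (hA0 : A ≠ .nil)
    (hP : ∀ T : BT, T.size < A.size + B.size + 1 → PP R q T) {X S H Q D UB : Finset V} {v x z : V} (hX : v ∈ X)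
    (hx : x ∈ X) (hvS : v ∈ S)
    (hvx : R v x) (hUB : UB ⊆ X) (hvU : v ∉ UB) (hxU : x ∉ UB) (hB : Emb R B (R v) UB)
    (hH : H ⊆ oN R X x) (hHU : Disjoint H UB) (hvH : v ∉ H)
    (hH1 : ∀ u ∈ iN R X x, u ≠ v → u ∉ UB → 1 ≤ (iN R H u).card ∧ (u ≠ z → 2 ≤ (iN R H u).card))
    (hQ : Q ⊆ oN R X x) (hQH : Disjoint Q H) (hQU : Disjoint Q UB) (hvQ : v ∉ Q)
    (hQ1 : ∀ u ∈ iN R X x, u ∉ D → 2 ≤ (iN R Q u).card)
    (hn : q (A.size + B.size + 1) ≤ X.card)
    (hc : ∀ l r, A = .node l r → q (min l.size r.size) + 2 + H.card + D.card + B.size ≤ X.card) :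
    ∃ U ⊆ X, Emb R (.node A B) (fun y => y ∈ S) U := by
  have hqm : ∀ a b, q a + b ≤ q (a + b) := by
    intro a b
    induction b with
    | zero => simp
    | succ b ih =>
      have h1 := hq (a + b)
      rw [← add_assoc a b 1]
      omega
  have hvx' : v ≠ x := by
    rintro rfl
    exact hT.irr _ hvx
  have hcard : ((X.erase v) \ UB).card = X.card - 1 - B.size := by
    rw [card_sdiff_of_subset, card_erase_of_mem hX, hB.card]
    intro y hy
    exact mem_erase.2 ⟨fun h => hvU (h ▸ hy), hUB hy⟩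
  have hsub : (X.erase v) \ UB ⊆ X := sdiff_subset.trans (erase_subset _ _)
  have hmem : ∀ y, y ∈ (X.erase v) \ UB ↔ y ∈ X ∧ y ≠ v ∧ y ∉ UB := by
    intro y
    rw [mem_sdiff, mem_erase]
    tauto
  have hBX : B.size + 1 ≤ X.card := by
    have h1 := hqm 0 (A.size + B.size + 1)
    rw [zero_add] at h1
    omega
  obtain ⟨U, hU, hRU⟩ := SLf hT hq hA0 (fun T hT' => hP T (by omega)) (Y := (X.erase v) \ UB) (H := H) (Q := Q)
    (B := D) (k := x) (z := z) ((hmem x).2 ⟨hx, hvx'.symm, hxU⟩) (by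
      rw [hcard]
      have h1 := hqm A.size (B.size + 1)
      rw [← add_assoc A.size B.size 1] at h1
      omega) (by
      intro y hy
      obtain ⟨h1, h2⟩ := mem_oN.1 (hH hy)
      exact mem_oN.2 ⟨(hmem y).2 ⟨h1, fun h => hvH (h ▸ hy), fun h => disjoint_left.1 hHU hy h⟩, h2⟩) (by
      intro u hu
      obtain ⟨h1, h2⟩ := mem_iN.1 hu
      obtain ⟨h3, h4, h5⟩ := (hmem u).1 h1
      exact hH1 u (mem_iN.2 ⟨h3, h2⟩) h4 h5) (by
      intro y hy
      obtain ⟨h1, h2⟩ := mem_oN.1 (hQ hy)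
      exact mem_oN.2 ⟨(hmem y).2 ⟨h1, fun h => hvQ (h ▸ hy), fun h => disjoint_left.1 hQU hy h⟩, h2⟩) hQH (by
      intro u hu hD
      obtain ⟨h1, h2⟩ := mem_iN.1 hu
      exact hQ1 u (mem_iN.2 ⟨((hmem u).1 h1).1, h2⟩) hD) (by
      intro l r hA
      have := hc l r hA
      rw [hcard]
      omega)
  have hvUn : v ∉ U := fun h => ((hmem v).1 (hU h)).2.1 rfl
  have hdis : Disjoint U UB := by
    rw [disjoint_left]
    intro y hy
    exact ((hmem y).1 (hU hy)).2.2
  refine ⟨insert v (U ∪ UB), ?_, v, U, UB, hvS, hvUn, hvU, hdis, rfl, hRU.under hvx, hB⟩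
  intro y hy
  rw [mem_insert, mem_union] at hy
  rcases hy with rfl | hy | hy
  · exact hX
  · exact hsub (hU hy)
  · exact hUB hy

end BC36
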