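import Pool.Agent.BC36.Pre
import Pool.Agent.BC36.Finish

/-!
# The case analysis, Case I: some realizable vertex
-/

namespace BC36
open Finset AE32

variable {V : Type*} [DecidableEq V] {R : V → V → Prop}

/-- `x` is one of the top vertices of `X` and can be reached from a root in `S` in one of three ways. -/
def Rz (R : V → V → Prop) (S X : Finset V) (d₀ e : ℕ) (x : V) : Prop :=
  x ∈ X ∧ d₀ ≤ dg R X x ∧ (x ∈ S ∨ (∃ v ∈ S, d₀ ≤ dg R X v + e ∧ R v x) ∨
    ∃ v ∈ S, ∃ y ∈ X, y ≠ x ∧ R v x ∧ R v y ∧ d₀ ≤ dg R X y + e)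

/-- `u` is an in-neighbour of `x` dominated by exactly one out-neighbour of `x`. -/
def Cr (R : V → V → Prop) (X : Finset V) (x u : V) : Prop :=
  u ∈ iN R X x ∧ dg R X u = dg R X x ∧ oN R (iN R X x) u = ∅

omit [DecidableEq V] in
theorem Cr.uniq (hT : Tour R) {X : Finset V} {x u u' : V} (h : Cr R X x u) (h' : Cr R X x u') : u = u' := by
  by_contra hne
  rcases hT.tot u u' hne with h1 | h1
  · have : u' ∈ oN R (iN R X x) u := mem_oN.2 ⟨h'.1, h1⟩
    rw [h.2.2] at this
    exact absurd this (notMem_empty _)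
  · have : u ∈ oN R (iN R X x) u' := mem_oN.2 ⟨h.1, h1⟩
    rw [h'.2.2] at this
    exact absurd this (notMem_empty _)

omit [DecidableEq V] in
theorem Cr.dom (hT : Tour R) {X : Finset V} {x u v : V} (h : Cr R X x u) (hv : v ∈ iN R X x) (hne : v ≠ u) :
    R v u := by
  rcases hT.tot v u hne with h1 | h1
  · exact h1
  · have : v ∈ oN R (iN R X x) u := mem_oN.2 ⟨hv, h1⟩
    rw [h.2.2] at this
    exact absurd this (notMem_empty _)

theorem one_dom (hT : Tour R) {X : Finset V} {x u : V} (hx : x ∈ X) (hu : u ∈ iN R X x)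
    (hd : dg R X u ≤ dg R X x) : 1 ≤ (iN R (oN R X x) u).card := by
  have h1 := ident hT hx (mem_iN.1 hu).1 (mem_iN.1 hu).2
  omega

theorem two_dom (hT : Tour R) {X : Finset V} {x u : V} (hx : x ∈ X) (hu : u ∈ iN R X x)
    (hd : dg R X u ≤ dg R X x) (hc : ¬ Cr R X x u) : 2 ≤ (iN R (oN R X x) u).card := by
  have h1 := ident hT hx (mem_iN.1 hu).1 (mem_iN.1 hu).2
  by_contra h2
  refine hc ⟨hu, by omega, ?_⟩
  rw [← card_eq_zero]
  omega

omit [DecidableEq V] in
theorem hst_of {X : Finset V} {d₀ e M : ℕ} (hd : (X.filter (fun z => d₀ < dg R X z)).card ≤ M) {y : V}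
    (hy : y ∈ X) (h : d₀ ≤ dg R X y + e) : Hst R X M e y := by
  classical
  refine ⟨hy, le_trans (card_le_card ?_) hd⟩
  intro z hz
  rw [mem_filter] at hz ⊢
  exact ⟨hz.1, by omega⟩

/-- the reserved sets `H`, `Q` for the final host `x`; `E` is a set of at most one vertex to be avoided -/
theorem build (hT : Tour R) {S X E : Finset V} {s d₀ e M : ℕ} {x z₀ : V} (hs : X.card ≤ s * s) (hs1 : 1 ≤ s)
    (hSX : S ⊆ X) (hS : ∀ u ∈ X, u ∉ S → 1 ≤ (iN R S u).card ∧ (u ≠ z₀ → 2 ≤ (iN R S u).card))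
    (hd : (X.filter (fun z => d₀ < dg R X z)).card ≤ M) (hx : x ∈ X) (hxd : d₀ ≤ dg R X x)
    (hmax : ∀ z ∈ X, dg R X x < dg R X z → ¬ Rz R S X d₀ e z)
    (hE : E.card ≤ 1) (hE1 : ∀ y ∈ E, d₀ ≤ dg R X y + e) :
    ∃ H Q D : Finset V, H ⊆ oN R X x ∧ Q ⊆ oN R X x ∧ Disjoint Q H ∧ Disjoint H E ∧ Disjoint Q E ∧
      H.card ≤ 30 * s + 24 + 2 * M ∧ Q.card ≤ 2 * s ∧ D.card ≤ 8 * (30 * s + 25 + 2 * M) + 12 * s + M ∧
      (∀ u ∈ iN R X x, u ∉ D → 2 ≤ (iN R Q u).card) ∧
      (∀ u ∈ iN R X x, dg R X u ≤ dg R X x → (1 ≤ (iN R (oN R X x \ E) u).card → 1 ≤ (iN R H u).card) ∧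
        (2 ≤ (iN R (oN R X x \ E) u).card → 2 ≤ (iN R H u).card)) ∧
      (∀ u ∈ iN R X x, dg R X x < dg R X u → 1 ≤ (iN R H u).card ∧
        (2 ≤ (iN R S u).card → 2 ≤ (iN R H u).card)) := by
  classical
  set J := (iN R X x).filter (fun u => dg R X u ≤ dg R X x) with hJ
  set Z := (iN R X x).filter (fun u => dg R X x < dg R X u) with hZ
  have hFr : Fr R X x 0 J := ⟨filter_subset _ _, fun u hu => by simpa using (mem_filter.1 hu).2⟩
  have hZM : Z.card ≤ M := by
    refine le_trans (card_le_card ?_) hd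
    intro z hz
    rw [hZ, mem_filter] at hz
    rw [mem_filter]
    exact ⟨(mem_iN.1 hz.1).1, by omega⟩
  -- vertices of `Z` are not realizable
  have hV : ∀ z ∈ Z, z ∉ S ∧ ∀ w ∈ iN R S z, w ∈ oN R X x ∧ ¬ d₀ ≤ dg R X w + e := by
    intro z hz
    rw [hZ, mem_filter] at hz
    have hzX := (mem_iN.1 hz.1).1
    have hn := hmax z hzX hz.2
    refine ⟨fun h => hn ⟨hzX, by omega, Or.inl h⟩, fun w hw => ?_⟩
    rw [mem_iN] at hw
    refine ⟨?_, fun h => hn ⟨hzX, by omega, Or.inr (Or.inl ⟨w, hw.1, h, hw.2⟩)⟩⟩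
    have hwx : w ≠ x := by
      rintro rfl
      exact hT.asym _ _ hw.2 (mem_iN.1 hz.1).2
    rcases hT.tot w x hwx with h | h
    · refine absurd ⟨hzX, by omega, Or.inr (Or.inr ⟨w, hw.1, x, hx, ?_, hw.2, h, by omega⟩)⟩ hn
      rintro rfl
      exact hT.irr _ (mem_iN.1 hz.1).2
    · exact mem_oN.2 ⟨hSX hw.1, h⟩
  have hO : (oN R X x \ (oN R X x \ E)).card ≤ 1 := by
    refine le_trans (card_le_card ?_) hE
    intro y hy
    rw [mem_sdiff, mem_sdiff] at hy
    by_contra h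
    exact hy.2 ⟨hy.1, h⟩
  obtain ⟨H₁, hH₁, hc₁, hd₁⟩ := lemH hT hx hFr (sdiff_subset : oN R X x \ E ⊆ oN R X x) hO hs hs1
  obtain ⟨HE, hcE, hE2, hE3⟩ := exc_sets (R := R) (S := S) (Z := Z) (fun z hz => by
    have hz' := (mem_filter.1 (hZ ▸ hz)).1
    exact (hS z (mem_iN.1 hz').1 (hV z hz).1).1)
  have hHEx : HE ⊆ oN R X x := by
    intro w hw
    obtain ⟨z, hz, h⟩ := hE2 w hw
    exact ((hV z hz).2 w h).1
  set H := H₁ ∪ HE with hH
  have hHx : H ⊆ oN R X x := union_subset (hH₁.trans sdiff_subset) hHEx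
  have hHc : H.card ≤ 30 * s + 24 + 2 * M := by
    have h0 : H.card ≤ H₁.card + HE.card := card_union_le _ _
    have h2 : HE.card ≤ 2 * M := by omega
    omega
  have hHE : Disjoint H E := by
    rw [disjoint_left]
    intro w hw hwE
    rcases mem_union.1 hw with h | h
    · exact (mem_sdiff.1 (hH₁ h)).2 hwE
    · obtain ⟨z, hz, h⟩ := hE2 w h
      exact ((hV z hz).2 w h).2 (hE1 w hwE)
  have hO2 : (oN R X x \ (oN R X x \ (H ∪ E))).card ≤ 30 * s + 25 + 2 * M := by
    refine le_trans (card_le_card (t := H ∪ E) ?_) (le_trans (card_union_le _ _) (by omega))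
    intro y hy
    rw [mem_sdiff, mem_sdiff] at hy
    by_contra h
    exact hy.2 ⟨hy.1, h⟩
  obtain ⟨Q, hQ, hcQ, B, hBJ, hcB, hB⟩ := lemR hT hx hFr (sdiff_subset : oN R X x \ (H ∪ E) ⊆ oN R X x) hO2 hs hs1
  have hQ' : ∀ w ∈ Q, w ∉ H ∧ w ∉ E := by
    intro w hw
    have := (mem_sdiff.1 (hQ hw)).2
    rw [mem_union, not_or] at this
    exact this
  refine ⟨H, Q, B ∪ Z, hHx, hQ.trans sdiff_subset, ?_, hHE, ?_, hHc, hcQ, ?_, ?_, ?_, ?_⟩
  · exact disjoint_left.2 fun w hw => (hQ' w hw).1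
  · exact disjoint_left.2 fun w hw => (hQ' w hw).2
  · refine le_trans (card_union_le _ _) ?_
    omega
  · intro u hu huD
    rw [mem_union, not_or] at huD
    refine hB u ?_ huD.1
    rw [hJ, mem_filter]
    refine ⟨hu, ?_⟩
    by_contra h
    exact huD.2 (by rw [hZ, mem_filter]; exact ⟨hu, by omega⟩)
  · intro u hu hdu
    have h1 := hd₁ u (by rw [hJ, mem_filter]; exact ⟨hu, hdu⟩)
    have h2 : (iN R H₁ u).card ≤ (iN R H u).card := card_le_card (iN_mono subset_union_left u)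
    exact ⟨fun h => le_trans (h1.1 h) h2, fun h => le_trans (h1.2 h) h2⟩
  · intro u hu hdu
    have h1 := hE3 u (by rw [hZ, mem_filter]; exact ⟨hu, hdu⟩)
    have h2 : (iN R HE u).card ≤ (iN R H u).card := card_le_card (iN_mono subset_union_right u)
    exact ⟨le_trans h1.1 h2, fun h => le_trans (h1.2 h) h2⟩

/-- placing the smaller child at the host `y` and the larger one at `x` -/
theorem use_host (hT : Tour R) {q : ℕ → ℕ} (hq : ∀ s, q s + 1 ≤ q (s + 1)) {A B : BT} (hB0 : B ≠ .nil)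
    (hBA : B.size ≤ A.size) (hP : ∀ T : BT, T.size < A.size + B.size + 1 → PP R q T) {S X : Finset V} {s : ℕ}
    (hSX : S ⊆ X) (hn : q (A.size + B.size + 1) ≤ X.card) (hs : X.card ≤ s * s) (hs1 : 1 ≤ s) {p : ℕ}
    (hN1 : q B.size + Jk s p ≤ X.card)
    (hN2 : ∀ l r, A = .node l r → q (min l.size r.size) + Jk s p + B.size + 1 ≤ X.card)
    {H Q D : Finset V} {v x y z : V} (hx : x ∈ X) (hvS : v ∈ S) (hvx : R v x) (hvy : R v y) (hyx : y ≠ x)
    (hy : Hst R X (MM p) (ee p) y) (hH : H ⊆ oN R X x) (hQ : Q ⊆ oN R X x) (hQH : Disjoint Q H) (hyH : y ∉ H) (hyQ : y ∉ Q)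
    (hcH : H.card ≤ 30 * s + 24 + 2 * MM p) (hcQ : Q.card ≤ 2 * s)
    (hcD : D.card ≤ 8 * (30 * s + 25 + 2 * MM p) + 12 * s + MM p)
    (hQ1 : ∀ u ∈ iN R X x, u ∉ D → 2 ≤ (iN R Q u).card)
    (hH1 : ∀ u ∈ iN R X x, u ≠ v → u ≠ y → 1 ≤ (iN R H u).card ∧ (u ≠ z → 2 ≤ (iN R H u).card)) :
    ∃ U ⊆ X, Emb R (.node A B) (fun y => y ∈ S) U := by
  classical
  have hA0 : A ≠ .nil := by
    rintro rfl
    have := size_pos hB0
    simp only [BT.size] at hBA
    omega
  have hvX := hSX hvS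
  have hvH : v ∉ H := fun h => hT.asym _ _ hvx (mem_oN.1 (hH h)).2
  have hvQ : v ∉ Q := fun h => hT.asym _ _ hvx (mem_oN.1 (hQ h)).2
  have hvy' : v ≠ y := by rintro rfl; exact hT.irr _ hvy
  have hM : ee p ≤ MM p := by unfold MM; nlinarith [Nat.zero_le (ee p)]
  have hJ : 3000 * (s + MM p) ≤ Jk s p := by
    unfold Jk
    nlinarith [Nat.zero_le (p * (s + MM p))]
  set F := H ∪ Q ∪ {v, x} with hF
  have hcF : F.card ≤ 32 * s + 26 + 2 * MM p := by
    have h1 : F.card ≤ (H ∪ Q).card + ({v, x} : Finset V).card := card_union_le _ _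
    have h2 := card_union_le H Q
    have h3 : ({v, x} : Finset V).card ≤ 2 := card_le_two
    omega
  have hyF : y ∉ F := by
    rw [hF, mem_union, mem_union, mem_insert, mem_singleton]
    rintro ((h | h) | (h | h))
    · exact hyH h
    · exact hyQ h
    · exact hvy' h.symm
    · exact hyx h
  obtain ⟨Q', hQ'X, hQ'F, hyQ', hcQ', hW⟩ := HL hT hq hB0 (fun T hT' => hP T (by omega)) hy hs hs1 hyF hcF
  have hXF : X \ (X \ F) ⊆ F := by
    intro w hw
    rw [mem_sdiff, mem_sdiff] at hw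
    by_contra h
    exact hw.2 ⟨hw.1, h⟩
  have hXFc := card_le_card hXF
  obtain ⟨U, hU, hUR⟩ := hW (X \ F) sdiff_subset (mem_sdiff.2 ⟨hy.1, hyF⟩)
    (fun w hw => mem_sdiff.2 ⟨hQ'X hw, disjoint_left.1 hQ'F hw⟩) (by
      have h3 : 16 * (ee p + (32 * s + 26 + 2 * MM p)) ≤ 16 * (32 * s + 26 + 3 * MM p) := by omega
      omega)
  have hUF : ∀ w ∈ U, w ∉ F := fun w hw => (mem_sdiff.1 (hU hw)).2
  have hUF' : ∀ w ∈ U, w ∉ H ∧ w ∉ Q ∧ w ≠ v ∧ w ≠ x := by
    intro w hw
    have := hUF w hw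
    simp only [hF, mem_union, mem_insert, mem_singleton, not_or] at this
    exact ⟨this.1.1, this.1.2, this.2.1, this.2.2⟩
  refine finish hT hq hA0 hP hvX hx hvS hvx (hU.trans sdiff_subset) (fun h => (hUF' v h).2.2.1 rfl)
    (fun h => (hUF' x h).2.2.2 rfl) (hUR.under hvy) hH (disjoint_right.2 fun w hw => (hUF' w hw).1) hvH
    (z := z) ?_ hQ hQH (disjoint_right.2 fun w hw => (hUF' w hw).2.1) hvQ (D := D) hQ1 hn ?_
  · intro u hu huv huU
    refine hH1 u hu huv ?_
    rintro rfl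
    exact huU (hUR.mem hB0)
  · intro l r hlr
    have := hN2 l r hlr
    omega

/-- placing the smaller child anywhere below `v` and the larger one at `x` -/
theorem use_free (hT : Tour R) {q : ℕ → ℕ} (hq : ∀ s, q s + 1 ≤ q (s + 1)) {A B : BT} (hB0 : B ≠ .nil)
    (hBA : B.size ≤ A.size) (hP : ∀ T : BT, T.size < A.size + B.size + 1 → PP R q T) {S X : Finset V} {s : ℕ}
    (hSX : S ⊆ X) (hn : q (A.size + B.size + 1) ≤ X.card) (hs : X.card ≤ s * s) (hs1 : 1 ≤ s) {p : ℕ}
    (hN1 : q B.size + Jk s p ≤ X.card)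
    (hN2 : ∀ l r, A = .node l r → q (min l.size r.size) + Jk s p + B.size + 1 ≤ X.card)
    {H Q D : Finset V} {v x z : V} (hx : x ∈ X) (hvS : v ∈ S) (hvx : R v x)
    (hv : Hst R X (MM p) (ee p) v) (hH : H ⊆ oN R X x) (hQ : Q ⊆ oN R X x) (hQH : Disjoint Q H)
    (hcH : H.card ≤ 30 * s + 24 + 2 * MM p) (hcQ : Q.card ≤ 2 * s)
    (hcD : D.card ≤ 8 * (30 * s + 25 + 2 * MM p) + 12 * s + MM p)
    (hQ1 : ∀ u ∈ iN R X x, u ∉ D → 2 ≤ (iN R Q u).card)
    (hH1 : ∀ u ∈ iN R X x, u ≠ v → 1 ≤ (iN R H u).card ∧ (u ≠ z → 2 ≤ (iN R H u).card)) :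
    ∃ U ⊆ X, Emb R (.node A B) (fun y => y ∈ S) U := by
  classical
  have hA0 : A ≠ .nil := by
    rintro rfl
    have := size_pos hB0
    simp only [BT.size] at hBA
    omega
  have hvX := hSX hvS
  have hvH : v ∉ H := fun h => hT.asym _ _ hvx (mem_oN.1 (hH h)).2
  have hvQ : v ∉ Q := fun h => hT.asym _ _ hvx (mem_oN.1 (hQ h)).2
  have hM : ee p ≤ MM p := by unfold MM; nlinarith [Nat.zero_le (ee p)]
  have hJ : 3000 * (s + MM p) ≤ Jk s p := by
    unfold Jk
    nlinarith [Nat.zero_le (p * (s + MM p))]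
  set F := H ∪ Q ∪ {v, x} with hF
  have hcF : F.card ≤ 32 * s + 26 + 2 * MM p := by
    have h1 : F.card ≤ (H ∪ Q).card + ({v, x} : Finset V).card := card_union_le _ _
    have h2 := card_union_le H Q
    have h3 : ({v, x} : Finset V).card ≤ 2 := card_le_two
    omega
  have hvF : v ∈ F := by rw [hF]; simp
  obtain ⟨U, hU, hUR⟩ := HN hT (hP B (by omega)) hv hs hs1 hvF hcF (by
      have h3 : 16 * (ee p + (32 * s + 26 + 2 * MM p)) ≤ 16 * (32 * s + 26 + 3 * MM p) := by omega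
      omega)
  have hUF : ∀ w ∈ U, w ∉ F := fun w hw => (mem_sdiff.1 (hU hw)).2
  have hUF' : ∀ w ∈ U, w ∉ H ∧ w ∉ Q ∧ w ≠ v ∧ w ≠ x := by
    intro w hw
    have := hUF w hw
    simp only [hF, mem_union, mem_insert, mem_singleton, not_or] at this
    exact ⟨this.1.1, this.1.2, this.2.1, this.2.2⟩
  refine finish hT hq hA0 hP hvX hx hvS hvx (hU.trans sdiff_subset) (fun h => (hUF' v h).2.2.1 rfl)
    (fun h => (hUF' x h).2.2.2 rfl) hUR hH (disjoint_right.2 fun w hw => (hUF' w hw).1) hvH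
    (z := z) (fun u hu huv _ => hH1 u hu huv) hQ hQH (disjoint_right.2 fun w hw => (hUF' w hw).2.1) hvQ (D := D) hQ1 hn ?_
  intro l r hlr
  have := hN2 l r hlr
  omega

theorem caseI (hT : Tour R) {q : ℕ → ℕ} (hq : ∀ s, q s + 1 ≤ q (s + 1)) {A B : BT} (hB0 : B ≠ .nil)
    (hBA : B.size ≤ A.size) (hP : ∀ T : BT, T.size < A.size + B.size + 1 → PP R q T) {S X : Finset V} {s : ℕ}
    (hS : Good R S X) (hn : q (A.size + B.size + 1) ≤ X.card) (hs : X.card ≤ s * s) (hs1 : 1 ≤ s) {p : ℕ}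
    (hN1 : q B.size + Jk s p ≤ X.card)
    (hN2 : ∀ l r, A = .node l r → q (min l.size r.size) + Jk s p + B.size + 1 ≤ X.card)
    {d₀ : ℕ} (hd : (X.filter (fun z => d₀ < dg R X z)).card ≤ MM p) (h : ∃ x, Rz R S X d₀ (ee p) x) :
    ∃ U ⊆ X, Emb R (.node A B) (fun y => y ∈ S) U := by
  classical
  obtain ⟨hSX, z₀, hS⟩ := hS
  set e := ee p with he
  have he1 : 1 ≤ e := by rw [he, ee]; omega
  -- a realizable vertex of maximum out-degree
  obtain ⟨x₀, hx₀⟩ := h
  obtain ⟨xm, hxm, hmaxm⟩ := exists_max_image (X.filter (fun x => Rz R S X d₀ e x)) (fun x => dg R X x)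
    ⟨x₀, mem_filter.2 ⟨hx₀.1, hx₀⟩⟩
  have hxm' := (mem_filter.1 hxm).2
  have hmaxR : ∀ x, Rz R S X d₀ e x → dg R X x ≤ dg R X xm := fun x hx => hmaxm x (mem_filter.2 ⟨hx.1, hx⟩)
  have hmax : ∀ x, dg R X x = dg R X xm → ∀ z ∈ X, dg R X x < dg R X z → ¬ Rz R S X d₀ e z := by
    intro x hx z _ hz hzR
    have := hmaxR z hzR
    omega
  have hK : ∀ x, Rz R S X d₀ e x → d₀ ≤ dg R X x := fun x hx => hx.2.1
  by_cases c1 : ∃ x v, Rz R S X d₀ e x ∧ dg R X x = dg R X xm ∧ v ∈ S ∧ d₀ ≤ dg R X v + e ∧ R v x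
  · obtain ⟨x, v, hx, hxd, hvS, hvd, hvx⟩ := c1
    have hx1 := hx.2.1
    obtain ⟨H, Q, D, b1, b2, b3, -, -, b6, b7, b8, b9, b10, b11⟩ := build hT (E := ∅) hs hs1 hSX hS hd hx.1 hx.2.1
      (hmax x hxd) (by simp) (by simp)
    rw [sdiff_empty] at b10
    by_cases c0 : ∃ u₀, Cr R X x u₀ ∧ u₀ ≠ v
    · obtain ⟨u₀, hu₀, hne⟩ := c0
      have hvu : R v u₀ := hu₀.dom hT (mem_iN.2 ⟨hSX hvS, hvx⟩) (Ne.symm hne)
      have hux := (mem_iN.1 hu₀.1).2
      refine use_host hT hq hB0 hBA hP hSX hn hs hs1 hN1 hN2 (H := H) (Q := Q) (D := D) (z := z₀) hx.1 hvS hvx hvu ?_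
        (hst_of hd (mem_iN.1 hu₀.1).1 (by rw [hu₀.2.1]; omega)) b1 b2 b3 (fun h => hT.asym _ _ hux (mem_oN.1 (b1 h)).2)
        (fun h => hT.asym _ _ hux (mem_oN.1 (b2 h)).2) b6 b7 b8 b9 ?_
      · rintro rfl
        exact hT.irr _ hux
      · intro u hu huv hu0
        by_cases hud : dg R X u ≤ dg R X x
        · have h2 := two_dom hT hx.1 hu hud (fun h => hu0 (h.uniq hT hu₀))
          have h3 := b10 u hu hud
          exact ⟨h3.1 (by omega), fun _ => h3.2 h2⟩
        · have h3 := b11 u hu (by omega)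
          have h4 := hmax x hxd u (mem_iN.1 hu).1 (by omega)
          have h5 : u ∉ S := fun h => h4 ⟨(mem_iN.1 hu).1, by omega, Or.inl h⟩
          exact ⟨h3.1, fun h => h3.2 ((hS u (mem_iN.1 hu).1 h5).2 h)⟩
    · refine use_free hT hq hB0 hBA hP hSX hn hs hs1 hN1 hN2 (H := H) (Q := Q) (D := D) (z := z₀) hx.1 hvS hvx
        (hst_of hd (hSX hvS) hvd) b1 b2 b3 b6 b7 b8 b9 ?_
      intro u hu huv
      by_cases hud : dg R X u ≤ dg R X x
      · have h2 := two_dom hT hx.1 hu hud (fun h => c0 ⟨u, h, huv⟩)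
        have h3 := b10 u hu hud
        exact ⟨h3.1 (by omega), fun _ => h3.2 h2⟩
      · have h3 := b11 u hu (by omega)
        have h4 := hmax x hxd u (mem_iN.1 hu).1 (by omega)
        have h5 : u ∉ S := fun h => h4 ⟨(mem_iN.1 hu).1, by omega, Or.inl h⟩
        exact ⟨h3.1, fun h => h3.2 ((hS u (mem_iN.1 hu).1 h5).2 h)⟩
  -- Case 2
  have c1' : ∀ x v, Rz R S X d₀ e x → dg R X x = dg R X xm → v ∈ S → R v x → ¬ d₀ ≤ dg R X v + e :=
    fun x v h1 h2 h3 h4 h5 => c1 ⟨x, v, h1, h2, h3, h5, h4⟩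
  by_cases c2 : ∃ x v y, Rz R S X d₀ e x ∧ dg R X x = dg R X xm ∧ v ∈ S ∧ R v x ∧ y ∈ X ∧ y ≠ x ∧ R v y ∧
      d₀ ≤ dg R X y + e
  · obtain ⟨x, v, y, hx, hxd, hvS, hvx, hyX, hyx, hvy, hyd⟩ := c2
    have hx1 := hx.2.1
    have hvI : v ∈ iN R X x := mem_iN.2 ⟨hSX hvS, hvx⟩
    have hvK := c1' x v hx hxd hvS hvx
    have hCv : ∀ u₀, Cr R X x u₀ → u₀ ≠ v := by
      rintro u₀ hu₀ rfl
      exact hvK (by have := hu₀.2.1; have := hx.2.1; omega)
    by_cases c3 : ∃ v y, v ∈ S ∧ R v x ∧ y ∈ X ∧ R y x ∧ R v y ∧ d₀ ≤ dg R X y + e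
    · -- 2c-i
      obtain ⟨v, y, hvS, hvx, hyX, hyx', hvy, hyd⟩ := c3
      have hvI : v ∈ iN R X x := mem_iN.2 ⟨hSX hvS, hvx⟩
      have hvK := c1' x v hx hxd hvS hvx
      have hCv : ∀ u₀, Cr R X x u₀ → u₀ ≠ v := by
        rintro u₀ hu₀ rfl
        exact hvK (by have := hu₀.2.1; have := hx.2.1; omega)
      obtain ⟨y', hy'I, hvy', hy'd, hy'C⟩ : ∃ y' ∈ iN R X x, R v y' ∧ d₀ ≤ dg R X y' + e ∧
          ∀ u, Cr R X x u → u = y' := by
        by_cases h0 : ∃ u₀, Cr R X x u₀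
        · obtain ⟨u₀, hu₀⟩ := h0
          exact ⟨u₀, hu₀.1, hu₀.dom hT hvI (Ne.symm (hCv u₀ hu₀)), by rw [hu₀.2.1]; have := hx.2.1; omega,
            fun u hu => hu.uniq hT hu₀⟩
        · exact ⟨y, mem_iN.2 ⟨hyX, hyx'⟩, hvy, hyd, fun u hu => absurd ⟨u, hu⟩ h0⟩
      obtain ⟨H, Q, D, b1, b2, b3, -, -, b6, b7, b8, b9, b10, b11⟩ := build hT (E := ∅) hs hs1 hSX hS hd hx.1 hx.2.1
        (hmax x hxd) (by simp) (by simp)
      rw [sdiff_empty] at b10
      have hux := (mem_iN.1 hy'I).2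
      refine use_host hT hq hB0 hBA hP hSX hn hs hs1 hN1 hN2 (H := H) (Q := Q) (D := D) (z := z₀) hx.1 hvS hvx hvy' ?_
        (hst_of hd (mem_iN.1 hy'I).1 hy'd) b1 b2 b3 (fun h => hT.asym _ _ hux (mem_oN.1 (b1 h)).2)
        (fun h => hT.asym _ _ hux (mem_oN.1 (b2 h)).2) b6 b7 b8 b9 ?_
      · rintro rfl
        exact hT.irr _ hux
      · intro u hu huv hu0
        by_cases hud : dg R X u ≤ dg R X x
        · have h2 := two_dom hT hx.1 hu hud (fun h => hu0 (hy'C u h))
          have h3 := b10 u hu hud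
          exact ⟨h3.1 (by omega), fun _ => h3.2 h2⟩
        · have h3 := b11 u hu (by omega)
          have h4 := hmax x hxd u (mem_iN.1 hu).1 (by omega)
          have h5 : u ∉ S := fun h => h4 ⟨(mem_iN.1 hu).1, by omega, Or.inl h⟩
          exact ⟨h3.1, fun h => h3.2 ((hS u (mem_iN.1 hu).1 h5).2 h)⟩
    · -- 2c-ii
      have c3' : ∀ v y, v ∈ S → R v x → y ∈ X → R v y → d₀ ≤ dg R X y + e → ¬ R y x :=
        fun v y h1 h2 h3 h4 h5 h6 => c3 ⟨v, y, h1, h2, h3, h6, h4, h5⟩
      have hxy : R x y := (hT.tot x y (Ne.symm hyx)).resolve_right (c3' v y hvS hvx hyX hvy hyd)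
      have hnoC : ∀ u₀, ¬ Cr R X x u₀ := by
        intro u₀ hu₀
        refine c3' v u₀ hvS hvx (mem_iN.1 hu₀.1).1 (hu₀.dom hT hvI (Ne.symm (hCv u₀ hu₀))) ?_ (mem_iN.1 hu₀.1).2
        rw [hu₀.2.1]
        have := hx.2.1
        omega
      obtain ⟨H, Q, D, b1, b2, b3, b4, b5, b6, b7, b8, b9, b10, b11⟩ := build hT (E := {y}) hs hs1 hSX hS hd hx.1
        hx.2.1 (hmax x hxd) (by simp) (by intro y' hy'; rw [mem_singleton.1 hy']; exact hyd)
      -- every fresh vertex keeps a dominator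
      have k1 : ∀ u ∈ iN R X x, dg R X u ≤ dg R X x →
          (iN R (oN R X x) u).card ≤ (iN R (oN R X x \ {y}) u).card + 1 := by
        intro u hu _
        have : iN R (oN R X x) u ⊆ insert y (iN R (oN R X x \ {y}) u) := by
          intro w hw
          rw [mem_insert]
          by_cases hwy : w = y
          · exact Or.inl hwy
          · exact Or.inr (mem_iN.2 ⟨mem_sdiff.2 ⟨(mem_iN.1 hw).1, by simpa using hwy⟩, (mem_iN.1 hw).2⟩)
        exact le_trans (card_le_card this) (card_insert_le _ _)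
      -- the structure of the fresh vertices with one dominator left
      have k2 : ∀ u ∈ iN R X x, dg R X u ≤ dg R X x → u ≠ v → ¬ 2 ≤ (iN R (oN R X x \ {y}) u).card →
          (iN R (oN R X x) u).card = 2 ∧ R y u ∧ dg R X u = dg R X x ∧ oN R (iN R X x) u = {v} := by
        intro u hu hud huv h2
        have h3 := two_dom hT hx.1 hu hud (hnoC u)
        have h4 := k1 u hu hud
        have h5 : (iN R (oN R X x) u).card = 2 := by omega
        have h6 : R y u := by
          by_contra h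
          have : iN R (oN R X x) u ⊆ iN R (oN R X x \ {y}) u := by
            intro w hw
            refine mem_iN.2 ⟨mem_sdiff.2 ⟨(mem_iN.1 hw).1, ?_⟩, (mem_iN.1 hw).2⟩
            rw [mem_singleton]
            rintro rfl
            exact h (mem_iN.1 hw).2
          have := card_le_card this
          omega
        have h7 := ident hT hx.1 (mem_iN.1 hu).1 (mem_iN.1 hu).2
        have h8 : R u v := by
          refine (hT.tot u v huv).resolve_right fun h => ?_
          exact c3' v u hvS hvx (mem_iN.1 hu).1 h (by have := hx.2.1; omega) (mem_iN.1 hu).2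
        have h9 : v ∈ oN R (iN R X x) u := mem_oN.2 ⟨hvI, h8⟩
        have h10 : 1 ≤ (oN R (iN R X x) u).card := card_pos.2 ⟨v, h9⟩
        have h11 : (oN R (iN R X x) u).card = 1 := by omega
        obtain ⟨w, hw⟩ := card_eq_one.1 h11
        rw [hw, mem_singleton] at h9
        exact ⟨h5, h6, by omega, by rw [hw, h9]⟩
      have k3 : ∀ u u', u ∈ iN R X x → dg R X u ≤ dg R X x → u ≠ v → ¬ 2 ≤ (iN R (oN R X x \ {y}) u).card →
          u' ∈ iN R X x → dg R X u' ≤ dg R X x → u' ≠ v → ¬ 2 ≤ (iN R (oN R X x \ {y}) u').card → u = u' := by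
        intro u u' h1 h2 h3 h4 h1' h2' h3' h4'
        by_contra hne
        have a1 := (k2 u h1 h2 h3 h4).2.2.2
        have a2 := (k2 u' h1' h2' h3' h4').2.2.2
        rcases hT.tot u u' hne with h | h
        · have : u' ∈ oN R (iN R X x) u := mem_oN.2 ⟨h1', h⟩
          rw [a1, mem_singleton] at this
          exact h3' this
        · have : u ∈ oN R (iN R X x) u' := mem_oN.2 ⟨h1, h⟩
          rw [a2, mem_singleton] at this
          exact h3 this
      have key : ∃ z, ∀ u ∈ iN R X x, u ≠ v → u ≠ y → 1 ≤ (iN R H u).card ∧ (u ≠ z → 2 ≤ (iN R H u).card) := by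
        by_cases hz : z₀ ∈ iN R X x ∧ dg R X x < dg R X z₀ ∧ ¬ 2 ≤ (iN R S z₀).card
        · refine ⟨z₀, fun u hu huv _ => ?_⟩
          by_cases hud : dg R X u ≤ dg R X x
          · have h3 := b10 u hu hud
            have h4 : 2 ≤ (iN R (oN R X x \ {y}) u).card := by
              by_contra h4
              obtain ⟨a1, a2, a3, a4⟩ := k2 u hu hud huv h4
              have huX := (mem_iN.1 hu).1
              have hux := (mem_iN.1 hu).2
              have huS : u ∉ S := fun h => c1' x u hx hxd h hux (by have := hx.2.1; omega)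
              have huz : u ≠ z₀ := by
                rintro rfl
                omega
              have h5 := (hS u huX huS).2 huz
              have h6 : iN R S u ⊆ iN R (oN R X x) u := by
                intro w hw
                rw [mem_iN] at hw
                have hwx : w ≠ x := by
                  rintro rfl
                  exact hT.asym _ _ hw.2 hux
                refine mem_iN.2 ⟨mem_oN.2 ⟨hSX hw.1, (hT.tot x w (Ne.symm hwx)).resolve_right fun h => ?_⟩, hw.2⟩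
                exact c3' w u hw.1 h huX hw.2 (by have := hx.2.1; omega) hux
              have h7 : iN R S u = iN R (oN R X x) u := eq_of_subset_of_card_le h6 (by omega)
              have h8 : y ∈ iN R S u := by
                rw [h7]
                exact mem_iN.2 ⟨mem_oN.2 ⟨hyX, hxy⟩, a2⟩
              have hyS := (mem_iN.1 h8).1
              exact c1 ⟨u, y, ⟨huX, by have := hx.2.1; omega, Or.inr (Or.inl ⟨y, hyS, hyd, a2⟩)⟩, by omega, hyS, hyd, a2⟩
            exact ⟨h3.1 (by omega), fun _ => h3.2 h4⟩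
          · have h3 := b11 u hu (by omega)
            have h4 := hmax x hxd u (mem_iN.1 hu).1 (by omega)
            have h5 : u ∉ S := fun h => h4 ⟨(mem_iN.1 hu).1, by have := hx.2.1; omega, Or.inl h⟩
            exact ⟨h3.1, fun h => h3.2 ((hS u (mem_iN.1 hu).1 h5).2 h)⟩
        · have hfr : ∀ u ∈ iN R X x, dg R X x < dg R X u → 1 ≤ (iN R H u).card ∧ 2 ≤ (iN R H u).card := by
            intro u hu hud
            have h3 := b11 u hu (by omega)
            have h4 := hmax x hxd u (mem_iN.1 hu).1 (by omega)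
            have h5 : u ∉ S := fun h => h4 ⟨(mem_iN.1 hu).1, by have := hx.2.1; omega, Or.inl h⟩
            refine ⟨h3.1, h3.2 ?_⟩
            by_cases huz : u = z₀
            · subst huz
              by_contra h6
              exact hz ⟨hu, hud, h6⟩
            · exact (hS u (mem_iN.1 hu).1 h5).2 huz
          by_cases h1 : ∃ u, u ∈ iN R X x ∧ dg R X u ≤ dg R X x ∧ u ≠ v ∧ ¬ 2 ≤ (iN R (oN R X x \ {y}) u).card
          · obtain ⟨u₁, g1, g2, g3, g4⟩ := h1
            refine ⟨u₁, fun u hu huv _ => ?_⟩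
            by_cases hud : dg R X u ≤ dg R X x
            · have h3 := b10 u hu hud
              have h4 := k1 u hu hud
              have h5 := two_dom hT hx.1 hu hud (hnoC u)
              refine ⟨h3.1 (by omega), fun hne => h3.2 ?_⟩
              by_contra h6
              exact hne (k3 u u₁ hu hud huv h6 g1 g2 g3 g4)
            · have h3 := hfr u hu (by omega)
              exact ⟨h3.1, fun _ => h3.2⟩
          · refine ⟨v, fun u hu huv _ => ?_⟩
            by_cases hud : dg R X u ≤ dg R X x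
            · have h3 := b10 u hu hud
              have h6 : 2 ≤ (iN R (oN R X x \ {y}) u).card := by
                by_contra h6
                exact h1 ⟨u, hu, hud, huv, h6⟩
              exact ⟨h3.1 (by omega), fun _ => h3.2 h6⟩
            · have h3 := hfr u hu (by omega)
              exact ⟨h3.1, fun _ => h3.2⟩
      obtain ⟨z, hz⟩ := key
      exact use_host hT hq hB0 hBA hP hSX hn hs hs1 hN1 hN2 (H := H) (Q := Q) (D := D) (z := z) hx.1 hvS hvx hvy hyx
        (hst_of hd hyX hyd) b1 b2 b3 (disjoint_singleton_right.1 b4) (disjoint_singleton_right.1 b5) b6 b7 b8 b9 hz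
  · -- 2a
    have c2' : ∀ x v y, Rz R S X d₀ e x → dg R X x = dg R X xm → v ∈ S → R v x → y ∈ X → y ≠ x → R v y →
        ¬ d₀ ≤ dg R X y + e := fun x v y h1 h2 h3 h4 h5 h6 h7 h8 => c2 ⟨x, v, y, h1, h2, h3, h4, h5, h6, h7, h8⟩
    have hxS : xm ∈ S := by
      rcases hxm'.2.2 with h | ⟨v, h1, h2, h3⟩ | ⟨v, h1, y, h2, h3, h4, h5, h6⟩
      · exact h
      · exact absurd h2 (c1' xm v hxm' rfl h1 h3)
      · exact absurd h6 (c2' xm v y hxm' rfl h1 h4 h2 h3 h5)
    obtain ⟨H, Q, D, b1, b2, b3, -, -, b6, b7, b8, b9, b10, b11⟩ := build hT (E := ∅) hs hs1 hSX hS hd hxm'.1 hxm'.2.1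
      (hmax xm rfl) (by simp) (by simp)
    rw [sdiff_empty] at b10
    have hxX := hxm'.1
    have hx1 := hxm'.2.1
    have key : ∃ z, ∀ u ∈ iN R X xm, 1 ≤ (iN R H u).card ∧ (u ≠ z → 2 ≤ (iN R H u).card) := by
      by_cases hz : z₀ ∈ iN R X xm ∧ dg R X xm < dg R X z₀ ∧ ¬ 2 ≤ (iN R S z₀).card
      · refine ⟨z₀, fun u hu => ?_⟩
        by_cases hud : dg R X u ≤ dg R X xm
        · have h3 := b10 u hu hud
          have h4 : ¬ Cr R X xm u := by
            intro hC
            have huX := (mem_iN.1 hu).1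
            have hux := (mem_iN.1 hu).2
            have huS : u ∉ S := fun h => c1' xm u hxm' rfl h hux (by rw [hC.2.1]; omega)
            have huz : u ≠ z₀ := by
              rintro rfl
              omega
            have h5 := (hS u huX huS).2 huz
            have h7 := ident hT hxX huX hux
            have h8 : (oN R (iN R X xm) u).card = 0 := by rw [hC.2.2]; rfl
            have h9 : (iN R (oN R X xm) u).card = 1 := by have := hC.2.1; omega
            have h6 : ¬ iN R S u ⊆ iN R (oN R X xm) u := fun h => by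
              have := card_le_card h
              omega
            rw [subset_iff] at h6
            push Not at h6
            obtain ⟨w, hw1, hw2⟩ := h6
            rw [mem_iN] at hw1
            have hwx : w ≠ xm := by
              rintro rfl
              exact hT.asym _ _ hw1.2 hux
            have hwx' : R w xm := (hT.tot w xm hwx).resolve_right fun h => hw2 (mem_iN.2 ⟨mem_oN.2 ⟨hSX hw1.1, h⟩, hw1.2⟩)
            refine c2' xm w u hxm' rfl hw1.1 hwx' huX ?_ hw1.2 (by rw [hC.2.1]; omega)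
            rintro rfl
            exact hT.irr _ hux
          have h2 := two_dom hT hxX hu hud h4
          exact ⟨h3.1 (by omega), fun _ => h3.2 h2⟩
        · have h3 := b11 u hu (by omega)
          have h4 := hmax xm rfl u (mem_iN.1 hu).1 (by omega)
          have h5 : u ∉ S := fun h => h4 ⟨(mem_iN.1 hu).1, by omega, Or.inl h⟩
          exact ⟨h3.1, fun h => h3.2 ((hS u (mem_iN.1 hu).1 h5).2 h)⟩
      · have hfr : ∀ u ∈ iN R X xm, dg R X xm < dg R X u → 1 ≤ (iN R H u).card ∧ 2 ≤ (iN R H u).card := by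
          intro u hu hud
          have h3 := b11 u hu (by omega)
          have h4 := hmax xm rfl u (mem_iN.1 hu).1 (by omega)
          have h5 : u ∉ S := fun h => h4 ⟨(mem_iN.1 hu).1, by omega, Or.inl h⟩
          refine ⟨h3.1, h3.2 ?_⟩
          by_cases huz : u = z₀
          · subst huz
            by_contra h6
            exact hz ⟨hu, hud, h6⟩
          · exact (hS u (mem_iN.1 hu).1 h5).2 huz
        by_cases h1 : ∃ u₀, Cr R X xm u₀
        · obtain ⟨u₀, hu₀⟩ := h1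
          refine ⟨u₀, fun u hu => ?_⟩
          by_cases hud : dg R X u ≤ dg R X xm
          · have h3 := b10 u hu hud
            refine ⟨h3.1 (one_dom hT hxX hu hud), fun hne => h3.2 (two_dom hT hxX hu hud fun h => hne (h.uniq hT hu₀))⟩
          · have h3 := hfr u hu (by omega)
            exact ⟨h3.1, fun _ => h3.2⟩
        · refine ⟨xm, fun u hu => ?_⟩
          by_cases hud : dg R X u ≤ dg R X xm
          · have h3 := b10 u hu hud
            have h2 := two_dom hT hxX hu hud (fun h => h1 ⟨u, h⟩)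
            exact ⟨h3.1 (by omega), fun _ => h3.2 h2⟩
          · have h3 := hfr u hu (by omega)
            exact ⟨h3.1, fun _ => h3.2⟩
    obtain ⟨z, hz⟩ := key
    have hJ : 3000 * (s + MM p) ≤ Jk s p := by
      unfold Jk
      nlinarith [Nat.zero_le (p * (s + MM p))]
    obtain ⟨U, hU, hUR⟩ := SLf hT hq (A := .node A B) (by simp) (by
        intro T hT'
        exact hP T (by simpa only [BT.size] using hT')) (Y := X) (H := H) (Q := Q) (B := D) (k := xm) (z := z) hxX
      (by simpa only [BT.size] using hn) b1 hz b2 b3 b9 (by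
        intro l r hlr
        injection hlr with e1 e2
        subst e1 e2
        have h5 : min A.size B.size = B.size := min_eq_right hBA
        rw [h5]
        omega)
    exact ⟨U, hU, hUR.emb hxS⟩

end BC36
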