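import Pool.Agent.BC36.Ladder
import Pool.Agent.BC36.Finish

/-!
# The ladder case
-/

namespace BC36
open Finset AE32

variable {V : Type*} [DecidableEq V] {R : V → V → Prop}

theorem Jk_eq (s p : ℕ) : Jk s p = 3000 * (p * s) + 3000 * s + 3000 * (p * MM p) + 3000 * MM p := by
  unfold Jk
  ring

theorem le_MM (p : ℕ) : 2 * p + 2 ≤ MM p := by
  unfold MM
  omega

theorem MM_eq (p : ℕ) : MM p = 2 * (p + (2 * ee p + 1) * (ee p + 1)) + 2 := rfl

/-- vertices with few dominators -/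
theorem crit_card (hT : Tour R) {X J : Finset V} {i : V} {e : ℕ} (hi : i ∈ X) (hJ : Fr R X i 0 J)
    (hc : ∀ u ∈ J, (iN R (oN R X i) u).card ≤ e + 1) : (J.biUnion (iN R (oN R X i))).card ≤ (2 * e + 1) * (e + 1) := by
  have h1 : J.card ≤ 2 * e + 1 := by
    refine few_low hT fun u hu => ?_
    have h2 := hJ.2 u hu
    have h3 := mem_iN.1 (hJ.1 hu)
    have h4 := ident hT hi h3.1 h3.2
    have h5 := hc u hu
    have h6 := card_le_card (oN_mono (R := R) hJ.1 u)
    omega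
  calc (J.biUnion (iN R (oN R X i))).card ≤ ∑ u ∈ J, (iN R (oN R X i) u).card := card_biUnion_le
    _ ≤ ∑ u ∈ J, (e + 1) := sum_le_sum hc
    _ = J.card * (e + 1) := by rw [sum_const, smul_eq_mul]
    _ ≤ (2 * e + 1) * (e + 1) := Nat.mul_le_mul_right _ h1

theorem caseII (hT : Tour R) {q : ℕ → ℕ} (hq : ∀ s, q s + 1 ≤ q (s + 1)) {A B : BT} (hB0 : B ≠ .nil)
    (hBA : B.size ≤ A.size) (hP : ∀ T : BT, T.size < A.size + B.size + 1 → PP R q T) {S X : Finset V} {s δ p : ℕ}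
    {z0 : V} (hSX : S ⊆ X) (hG : ∀ u ∈ X, u ∉ S → 1 ≤ (iN R S u).card ∧ (u ≠ z0 → 2 ≤ (iN R S u).card))
    (hn : q (A.size + B.size + 1) ≤ X.card) (hs : X.card ≤ s * s) (hs1 : 1 ≤ s) (hp : p = 1 + lam B)
    (hN1 : q B.size + Jk s p ≤ X.card)
    (hN2 : ∀ l r, A = .node l r → q (min l.size r.size) + Jk s p + B.size + 1 ≤ X.card)
    (hd1 : (X.filter (fun x => δ < dg R X x)).card < MM p)
    (hd2 : MM p ≤ (X.filter (fun x => δ ≤ dg R X x)).card)
    (hnr : ∀ x ∈ X, δ ≤ dg R X x → x ∉ S ∧ ∀ v ∈ S, R v x → dg R X v + ee p < δ ∧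
      ∀ y ∈ X, δ ≤ dg R X y + ee p → y ≠ x → ¬ R v y) :
    ∃ U ⊆ X, Emb R (.node A B) (fun y => y ∈ S) U := by
  classical
  have hMM := le_MM p
  have hJk := Jk_eq s p
  have hBs := size_pos hB0
  have hA0 : A ≠ .nil := by
    rintro rfl
    simp [BT.size] at hBA
    omega
  -- the tops
  obtain ⟨K, hK, hKc⟩ : ∃ K ⊆ (X.filter (fun x => δ ≤ dg R X x)).erase z0, K.card = MM p - 1 :=
    exists_subset_card_eq ((by omega : MM p - 1 ≤ (X.filter (fun x => δ ≤ dg R X x)).card - 1).trans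
      pred_card_le_card_erase)
  have hK1 : ∀ x ∈ K, x ∈ X ∧ δ ≤ dg R X x ∧ x ≠ z0 := by
    intro x hx
    have h1 := mem_erase.1 (hK hx)
    have h2 := mem_filter.1 h1.2
    exact ⟨h2.1, h2.2, h1.1⟩
  have hv : ∀ x, ∃ a b, x ∈ K → a ∈ S ∧ R a x ∧ b ∈ S ∧ R b x ∧ R a b := by
    intro x
    by_cases hx : x ∈ K
    · obtain ⟨h1, h2, h3⟩ := hK1 x hx
      obtain ⟨h4, -⟩ := hnr x h1 h2
      have h5 := (hG x h1 h4).2 h3
      obtain ⟨a, ha, b, hb, hab⟩ := one_lt_card.1 h5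
      rw [mem_iN] at ha hb
      rcases hT.tot a b hab with h6 | h6
      · exact ⟨a, b, fun _ => ⟨ha.1, ha.2, hb.1, hb.2, h6⟩⟩
      · exact ⟨b, a, fun _ => ⟨hb.1, hb.2, ha.1, ha.2, h6⟩⟩
    · exact ⟨x, x, fun h => absurd h hx⟩
  choose vf vg hv using hv
  have hKS : ∀ x ∈ K, x ∉ S := fun x hx => (hnr x (hK1 x hx).1 (hK1 x hx).2.1).1
  -- elements of S dominating a top dominate no other top
  have hpr : ∀ x ∈ X, δ ≤ dg R X x → ∀ w ∈ S, R w x → ∀ y ∈ X, δ ≤ dg R X y + ee p → R w y → y = x := by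
    intro x hx hx' w hw hwx y hy hy' hwy
    by_contra h
    exact ((hnr x hx hx').2 w hw hwx).2 y hy hy' h hwy
  have hpK : ∀ x ∈ K, ∀ w ∈ S, R w x → ∀ y ∈ X, δ ≤ dg R X y + ee p → R w y → y = x := fun x hx =>
    hpr x (hK1 x hx).1 (hK1 x hx).2.1
  have hKe : ∀ y ∈ K, δ ≤ dg R X y + ee p := fun y hy => by
    have := (hK1 y hy).2.1
    omega
  have hinj : ∀ x ∈ K, ∀ y ∈ K, vf x = vf y → y = x := by
    intro x hx y hy hxy
    obtain ⟨h1, h2, -⟩ := hv x hx
    obtain ⟨h3, h4, -⟩ := hv y hy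
    exact hpK x hx _ h1 h2 y (hK1 y hy).1 (hKe y hy) (hxy ▸ h4)
  have hk : ∀ a, ∃ x, (∃ y ∈ K, vf y = a) → x ∈ K ∧ vf x = a := by
    intro a
    by_cases h : ∃ y ∈ K, vf y = a
    · obtain ⟨y, hy, hy'⟩ := h
      exact ⟨y, fun _ => ⟨hy, hy'⟩⟩
    · exact ⟨a, fun h' => absurd h' h⟩
  choose kf hk using hk
  set W : Finset V := K.image vf with hW
  have hWc : W.card = MM p - 1 := by
    rw [hW, card_image_of_injOn, hKc]
    intro x hx y hy hxy
    exact (hinj x hx y hy hxy).symm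
  have hWk : ∀ a ∈ W, kf a ∈ K ∧ vf (kf a) = a := by
    intro a ha
    obtain ⟨y, hy, hy'⟩ := mem_image.1 ha
    exact hk a ⟨y, hy, hy'⟩
  have hWne : W.Nonempty := by
    rw [← card_pos]
    omega
  obtain ⟨a, haW, ha⟩ := exists_high hT hWne
  set i := kf a with hi
  have hiK : i ∈ K := (hWk a haW).1
  have hai : vf i = a := (hWk a haW).2
  obtain ⟨hiX, hiδ, hiz⟩ := hK1 i hiK
  obtain ⟨haS, hRai, hgS, hRgi, hRag⟩ := hv i hiK
  rw [hai] at haS hRai hRag
  -- critical vertices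
  set J : Finset V := (iN R X i).filter (fun u => dg R X u ≤ dg R X i) with hJ
  have hJF : Fr R X i 0 J := ⟨filter_subset _ _, fun u hu => by
    have := (mem_filter.1 hu).2
    omega⟩
  set CU : Finset V := J.filter (fun u => (iN R (oN R X i) u).card ≤ ee p + 1) with hCU
  set crit : Finset V := CU.biUnion (iN R (oN R X i)) with hcrit
  have hcc : crit.card ≤ (2 * ee p + 1) * (ee p + 1) :=
    crit_card hT hiX ⟨(filter_subset _ _).trans hJF.1, fun u hu => hJF.2 u (filter_subset _ _ hu)⟩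
      (fun u hu => (mem_filter.1 hu).2)
  -- the ladder vertices
  set N : Finset V := (oN R W a).filter (fun b => kf b ∉ crit) with hN
  have hNc : lam B ≤ N.card := by
    have h1 : ((oN R W a).filter (fun b => ¬ kf b ∉ crit)).card ≤ crit.card := by
      refine card_le_card_of_injOn kf ?_ ?_
      · intro b hb
        rw [mem_coe, mem_filter] at hb
        exact not_not.1 hb.2
      · intro b hb c hc hbc
        have hb' := hWk b (oN_sub (mem_filter.1 (mem_coe.1 hb)).1)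
        have hc' := hWk c (oN_sub (mem_filter.1 (mem_coe.1 hc)).1)
        rw [← hb'.2, ← hc'.2, hbc]
    have h2 : N.card + ((oN R W a).filter (fun b => ¬ kf b ∉ crit)).card = (oN R W a).card :=
      card_filter_add_card_filter_not (s := oN R W a) (fun b => kf b ∉ crit)
    rw [hWc] at ha
    have h3 := MM_eq p
    omega
  obtain ⟨N', hN', hN'c⟩ := exists_subset_card_eq hNc
  have hN1' : ∀ b ∈ N', b ∈ S ∧ kf b ∈ K ∧ vf (kf b) = b ∧ R a b ∧ kf b ∉ crit ∧ R b (kf b) ∧ vg (kf b) ∈ S ∧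
      R (vg (kf b)) (kf b) ∧ R b (vg (kf b)) := by
    intro b hb
    have h1 := mem_filter.1 (hN' hb)
    have h2 := mem_oN.1 h1.1
    obtain ⟨h3, h4⟩ := hWk b h2.1
    obtain ⟨h5, h6, h7, h8, h9⟩ := hv (kf b) h3
    rw [h4] at h5 h6 h9
    exact ⟨h5, h3, h4, h2.2, h1.2, h6, h7, h8, h9⟩
  have hiS : i ∉ S := hKS i hiK
  have hdi : δ ≤ dg R X i + ee p := by omega
  -- dominators (in `S`) of a vertex `x` of large out-degree do not dominate another one
  have hai' : a ≠ vg i := fun h => hT.irr _ (h ▸ hRag)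
  have hki : ∀ b ∈ N', kf b ≠ i := by
    intro b hb h
    obtain ⟨-, -, h1, h2, -⟩ := hN1' b hb
    rw [h, hai] at h1
    rw [← h1] at h2
    exact hT.irr _ h2
  -- the ladder
  set Lad : Finset V := insert a (insert (vg i) (insert i (N' ∪ N'.image kf ∪ N'.image (fun b => vg (kf b))))) with hLad
  have hLadc : Lad.card ≤ 3 * p := by
    have h1 : Lad.card ≤ _ := card_insert_le a (insert (vg i) (insert i (N' ∪ N'.image kf ∪ N'.image (fun b => vg (kf b)))))
    have h2 := card_insert_le (vg i) (insert i (N' ∪ N'.image kf ∪ N'.image (fun b => vg (kf b))))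
    have h3 := card_insert_le i (N' ∪ N'.image kf ∪ N'.image (fun b => vg (kf b)))
    have h4 := card_union_le (N' ∪ N'.image kf) (N'.image (fun b => vg (kf b)))
    have h5 := card_union_le N' (N'.image kf)
    have h6 := card_image_le (s := N') (f := kf)
    have h7 := card_image_le (s := N') (f := fun b => vg (kf b))
    omega
  have hmL : ∀ w, w ∈ Lad ↔ w = a ∨ w = vg i ∨ w = i ∨ (∃ b ∈ N', w = b ∨ w = kf b ∨ w = vg (kf b)) := by
    intro w
    simp only [hLad, mem_insert, mem_union, mem_image]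
    constructor
    · rintro (h | h | h | (h | ⟨b, hb, h⟩) | ⟨b, hb, h⟩)
      · exact Or.inl h
      · exact Or.inr (Or.inl h)
      · exact Or.inr (Or.inr (Or.inl h))
      · exact Or.inr (Or.inr (Or.inr ⟨w, h, Or.inl rfl⟩))
      · exact Or.inr (Or.inr (Or.inr ⟨b, hb, Or.inr (Or.inl h.symm)⟩))
      · exact Or.inr (Or.inr (Or.inr ⟨b, hb, Or.inr (Or.inr h.symm)⟩))
    · rintro (h | h | h | ⟨b, hb, h | h | h⟩)
      · exact Or.inl h
      · exact Or.inr (Or.inl h)
      · exact Or.inr (Or.inr (Or.inl h))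
      · exact Or.inr (Or.inr (Or.inr (Or.inl (Or.inl (h ▸ hb)))))
      · exact Or.inr (Or.inr (Or.inr (Or.inl (Or.inr ⟨b, hb, h.symm⟩))))
      · exact Or.inr (Or.inr (Or.inr (Or.inr ⟨b, hb, h.symm⟩)))
  set O : Finset V := oN R X i \ Lad with hO
  have hOl : (oN R X i \ O).card ≤ 3 * p := by
    refine (card_le_card ?_).trans hLadc
    intro w hw
    rw [hO, mem_sdiff, mem_sdiff] at hw
    by_contra h
    exact hw.2 ⟨hw.1, h⟩
  obtain ⟨H, hHO, hHc, hH⟩ := lemH hT hiX hJF (O := O) sdiff_subset hOl hs hs1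
  -- exceptional vertices
  set Z : Finset V := (iN R X i).filter (fun z => dg R X i < dg R X z) with hZ
  have hZ1 : ∀ z ∈ Z, z ∈ X ∧ R z i ∧ δ ≤ dg R X z ∧ z ∉ S := by
    intro z hz
    obtain ⟨h1, h2⟩ := mem_filter.1 hz
    obtain ⟨h3, h4⟩ := mem_iN.1 h1
    exact ⟨h3, h4, by omega, (hnr z h3 (by omega)).1⟩
  have hZc : Z.card ≤ MM p := by
    refine (card_le_card ?_).trans hd1.le
    intro z hz
    obtain ⟨h1, h2⟩ := mem_filter.1 hz
    exact mem_filter.2 ⟨(mem_iN.1 h1).1, by omega⟩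
  have hZS : ∀ z ∈ Z, 1 ≤ (iN R S z).card ∧ (z ≠ z0 → 2 ≤ (iN R S z).card) := fun z hz =>
    hG z (hZ1 z hz).1 (hZ1 z hz).2.2.2
  obtain ⟨HE, hHEc, hHE1, hHE2⟩ := exc_sets (R := R) (S := S) (Z := Z \ Lad) (fun z hz => (hZS z (mem_sdiff.1 hz).1).1)
  have hHEO : HE ⊆ O := by
    intro w hw
    obtain ⟨z, hz, hw'⟩ := hHE1 w hw
    obtain ⟨hz, hzL⟩ := mem_sdiff.1 hz
    obtain ⟨hwS, hwz⟩ := mem_iN.1 hw'
    obtain ⟨hzX, hzi, hzδ, hzS⟩ := hZ1 z hz
    have h1 := hpr z hzX hzδ w hwS hwz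
    have hzi' : i ≠ z := by
      rintro rfl
      exact hT.irr _ hzi
    have h2 : ¬ R w i := fun h => hzi' (h1 i hiX hdi h)
    have h3 : w ≠ i := fun h => hiS (h ▸ hwS)
    have h4 : R i w := (hT.tot w i h3).resolve_left h2
    refine mem_sdiff.2 ⟨mem_oN.2 ⟨hSX hwS, h4⟩, fun h5 => ?_⟩
    rcases (hmL w).1 h5 with h | h | h | ⟨b, hb, h | h | h⟩
    · exact h2 (h ▸ hRai)
    · exact h2 (h ▸ hRgi)
    · exact h3 h
    · obtain ⟨-, hb1, -, -, -, hb2, -⟩ := hN1' b hb
      have h6 := h1 (kf b) (hK1 _ hb1).1 (hKe _ hb1) (h ▸ hb2)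
      exact hzL ((hmL z).2 (Or.inr (Or.inr (Or.inr ⟨b, hb, Or.inr (Or.inl h6.symm)⟩))))
    · exact hKS _ (hN1' b hb).2.1 (h ▸ hwS)
    · obtain ⟨-, hb1, -, -, -, -, -, hb2, -⟩ := hN1' b hb
      have h6 := h1 (kf b) (hK1 _ hb1).1 (hKe _ hb1) (h ▸ hb2)
      exact hzL ((hmL z).2 (Or.inr (Or.inr (Or.inr ⟨b, hb, Or.inr (Or.inl h6.symm)⟩))))
  set H1 : Finset V := H ∪ HE with hH1
  have hH1O : H1 ⊆ O := union_subset hHO hHEO
  have hH1c : H1.card ≤ 30 * s + 72 * p + 2 * MM p := by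
    have h1 : H1.card ≤ _ := card_union_le H HE
    have h2 := card_le_card (sdiff_subset (s := Z) (t := Lad))
    omega
  have hQl : (oN R X i \ (O \ H1)).card ≤ 3 * p + (30 * s + 72 * p + 2 * MM p) := sdiff_sdiff_card hOl hH1c
  obtain ⟨Q, hQO, hQc, D0, hD0, hD0c, hQ⟩ := lemR hT hiX hJF (O := O \ H1) (sdiff_subset.trans sdiff_subset) hQl hs hs1
  have hQO' : Q ⊆ O := hQO.trans sdiff_subset
  have hQH1 : Disjoint Q H1 := by
    rw [disjoint_left]
    intro w hw hw'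
    exact (mem_sdiff.1 (hQO hw)).2 hw'
  have hLH : ∀ w ∈ Lad, w ∉ H1 ∧ w ∉ Q := fun w hw => ⟨fun h => (mem_sdiff.1 (hH1O h)).2 hw, fun h =>
    (mem_sdiff.1 (hQO' h)).2 hw⟩
  set F : Finset V := insert a (insert i (H1 ∪ Q)) with hF
  have hFc : F.card ≤ 32 * s + 72 * p + 2 * MM p + 2 := by
    have h1 : F.card ≤ _ := card_insert_le a (insert i (H1 ∪ Q))
    have h2 := card_insert_le i (H1 ∪ Q)
    have h3 := card_union_le H1 Q
    omega
  have hmF : ∀ w ∈ Lad, w ≠ a → w ≠ i → w ∉ F := by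
    intro w hw h1 h2 h3
    rw [hF, mem_insert, mem_insert, mem_union] at h3
    have := hLH w hw
    tauto
  have haL : a ∈ Lad := (hmL a).2 (Or.inl rfl)
  have hgL : vg i ∈ Lad := (hmL _).2 (Or.inr (Or.inl rfl))
  have hbL : ∀ b ∈ N', b ∈ Lad := fun b hb => (hmL _).2 (Or.inr (Or.inr (Or.inr ⟨b, hb, Or.inl rfl⟩)))
  have hkL : ∀ b ∈ N', kf b ∈ Lad := fun b hb => (hmL _).2 (Or.inr (Or.inr (Or.inr ⟨b, hb, Or.inr (Or.inl rfl)⟩)))
  have hvL : ∀ b ∈ N', vg (kf b) ∈ Lad := fun b hb =>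
    (hmL _).2 (Or.inr (Or.inr (Or.inr ⟨b, hb, Or.inr (Or.inr rfl)⟩)))
  have hps : 1 ≤ p := by omega
  have hlp : s * lam B ≤ p * s := by
    rw [mul_comm]
    exact Nat.mul_le_mul_right _ (by omega)
  have hFaN : ∀ b ∈ N', b ∉ F ∧ kf b ∉ F ∧ vg (kf b) ∉ F := by
    intro b hb
    obtain ⟨h1, h2, h3, h4, h5, h6, h7, h8, h9⟩ := hN1' b hb
    refine ⟨hmF _ (hbL b hb) ?_ ?_, hmF _ (hkL b hb) ?_ (hki b hb), hmF _ (hvL b hb) ?_ ?_⟩
    · rintro rfl
      exact hT.irr _ h4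
    · rintro rfl
      exact hiS h1
    · intro h
      exact hKS _ h2 (h ▸ haS)
    · intro h
      exact hki b hb (hpK i hiK a haS hRai (kf b) (hK1 _ h2).1 (hKe _ h2) (h ▸ h8))
    · intro h
      exact hiS (h ▸ h7)
  -- the smaller child
  obtain ⟨UB, hUB, hUBe, hUBk⟩ : ∃ UB ⊆ X \ F, Emb R B (R a) UB ∧ ∀ b ∈ N', kf b ∈ UB := by
    rcases Nat.lt_or_ge B.size 2 with hB2 | hB2
    · have h1 := size_one (B := B) (by omega)
      have h2 : N' = ∅ := by
        rw [← card_eq_zero, hN'c, h1, lam_leaf]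
      refine ⟨{vg i}, ?_, ?_, ?_⟩
      · rw [singleton_subset_iff, mem_sdiff]
        exact ⟨hSX hgS, hmF _ hgL hai'.symm (fun h => hiS (h ▸ hgS))⟩
      · rw [h1]
        exact emb_leaf hRag
      · intro b hb
        rw [h2] at hb
        simp at hb
    · obtain ⟨L, hL1, hL2, hL3⟩ := ham hT N'
      have hL4 : L.length = lam B := by
        rw [← List.toFinset_card_of_nodup hL1, hL2, hN'c]
      have hL5 : ∀ b, b ∈ L → b ∈ N' := fun b hb => by
        rw [← hL2]
        exact List.mem_toFinset.2 hb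
      have hL6 : ∀ b, b ∈ N' → b ∈ L := fun b hb => by
        rw [← hL2] at hb
        exact List.mem_toFinset.1 hb
      have hl := lam_pos hB2
      obtain ⟨v1, L', rfl⟩ : ∃ v1 L', L = v1 :: L' := by
        cases L with
        | nil => simp at hL4; omega
        | cons x l => exact ⟨x, l, rfl⟩
      obtain ⟨U, hU, hUr, hUk⟩ := LL hT hq hs hs1 (X := X) (M := MM p) (e := 0) (k := kf) (v' := fun b => vg (kf b)) B hB2
        (fun T hT' => hP T (by omega)) v1 L' F hL4 hL3 hL1 (by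
          intro b hb
          obtain ⟨h1, h2, h3, h4, h5, h6, h7, h8, h9⟩ := hN1' b (hL5 b hb)
          obtain ⟨h10, h11, h12⟩ := hFaN b (hL5 b hb)
          refine ⟨hSX h1, (hK1 _ h2).1, hSX h7, h6, h9, ⟨(hK1 _ h2).1, ?_⟩, h10, h11, h12⟩
          refine (card_le_card ?_).trans hd1.le
          intro y hy
          have h13 := mem_filter.1 hy
          have h14 := (hK1 _ h2).2.1
          exact mem_filter.2 ⟨h13.1, by omega⟩) (by
          intro c hc b hb
          obtain ⟨g1, g2, g3, g4, g5, g6, g7, g8, g9⟩ := hN1' c (hL5 c hc)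
          obtain ⟨h1, h2, h3, h4, h5, h6, h7, h8, h9⟩ := hN1' b (hL5 b hb)
          have hkk : kf c = kf b → c = b := by
            intro h
            rw [← g3, ← h3, h]
          refine ⟨fun h => hKS _ h2 (h ▸ g1), ?_, fun h => hKS _ g2 (h ▸ h7), hkk, ?_⟩
          · intro h
            have e1 := hpK (kf c) g2 c g1 g6 (kf b) (hK1 _ h2).1 (hKe _ h2) (h ▸ h8)
            have e2 := hkk e1.symm
            subst e2
            exact hT.irr c (by nth_rw 2 [h]; exact g9)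
          · intro h
            have e1 := hpK (kf c) g2 (vg (kf c)) g7 g8 (kf b) (hK1 _ h2).1 (hKe _ h2) (by
              have h' : vg (kf c) = vg (kf b) := h
              rw [h']
              exact h8)
            exact hkk e1.symm) (by
          have e1 : 68 * s * lam B ≤ 68 * (p * s) := by
            rw [mul_assoc]
            exact Nat.mul_le_mul_left _ hlp
          omega)
      refine ⟨U, hU, hUr.under (hN1' v1 (hL5 v1 (by simp))).2.2.2.1, fun b hb => hUk b (hL6 b hb)⟩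
  -- vertices outside `UB` dominating `i` have two dominators in `O`
  have hkey : ∀ u ∈ J, u ≠ a → u ∉ UB → 2 ≤ (iN R O u).card := by
    intro u hu hua huU
    obtain ⟨hu1, hu2⟩ := mem_filter.1 hu
    obtain ⟨huX, hui⟩ := mem_iN.1 hu1
    have hid := ident hT hiX huX hui
    have hiu : i ≠ u := by
      rintro rfl
      exact hT.irr _ hui
    by_cases hc : (iN R (oN R X i) u).card ≤ ee p + 1
    · have huC : u ∈ CU := mem_filter.2 ⟨hu, hc⟩
      have hue : δ ≤ dg R X u + ee p := by omega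
      have h1 : ∀ w ∈ S, R w i → ¬ R w u := fun w hw hwi hwu => hiu (hpr i hiX hiδ w hw hwi u huX hue hwu).symm
      have h2 : u ≠ vg i := by
        rintro rfl
        exact h1 a haS hRai hRag
      have h3 : R u a := (hT.tot u a hua).resolve_right (h1 a haS hRai)
      have h4 : R u (vg i) := (hT.tot u (vg i) h2).resolve_right (h1 _ hgS hRgi)
      have h5 : 2 ≤ (oN R (iN R X i) u).card := by
        rw [← card_pair hai']
        refine card_le_card ?_
        intro w hw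
        rw [mem_insert, mem_singleton] at hw
        rcases hw with rfl | rfl
        · exact mem_oN.2 ⟨mem_iN.2 ⟨hSX haS, hRai⟩, h3⟩
        · exact mem_oN.2 ⟨mem_iN.2 ⟨hSX hgS, hRgi⟩, h4⟩
      have h6 : iN R (oN R X i) u ⊆ iN R O u := by
        intro w hw
        obtain ⟨h7, h8⟩ := mem_iN.1 hw
        obtain ⟨h9, h10⟩ := mem_oN.1 h7
        refine mem_iN.2 ⟨mem_sdiff.2 ⟨h7, fun h11 => ?_⟩, h8⟩
        rcases (hmL w).1 h11 with h | h | h | ⟨b, hb, h | h | h⟩
        · exact hT.asym _ _ hRai (h ▸ h10)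
        · exact hT.asym _ _ hRgi (h ▸ h10)
        · exact hT.irr _ (h ▸ h10 : R i i)
        · obtain ⟨g1, g2, g3, g4, g5, g6, g7, g8, g9⟩ := hN1' b hb
          have := hpK (kf b) g2 b g1 g6 u huX hue (h ▸ h8)
          exact huU (this ▸ hUBk b hb)
        · obtain ⟨g1, g2, g3, g4, g5, g6, g7, g8, g9⟩ := hN1' b hb
          exact g5 (h ▸ mem_biUnion.2 ⟨u, huC, hw⟩)
        · obtain ⟨g1, g2, g3, g4, g5, g6, g7, g8, g9⟩ := hN1' b hb
          have := hpK (kf b) g2 (vg (kf b)) g7 g8 u huX hue (h ▸ h8)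
          exact huU (this ▸ hUBk b hb)
      have h7 := card_le_card h6
      omega
    · have h6 : iN R (oN R X i) u ⊆ iN R O u ∪ Lad := by
        intro w hw
        obtain ⟨h7, h8⟩ := mem_iN.1 hw
        by_cases h9 : w ∈ Lad
        · exact mem_union_right _ h9
        · exact mem_union_left _ (mem_iN.2 ⟨mem_sdiff.2 ⟨h7, h9⟩, h8⟩)
      have h7 := (card_le_card h6).trans (card_union_le _ _)
      have h8 : ee p = 3 * p + 2 := rfl
      omega
  have hUBF : ∀ w ∈ UB, w ∉ F := fun w hw => (mem_sdiff.1 (hUB hw)).2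
  have hD : (D0 ∪ Z).card ≤ 600 * p + 252 * s + 17 * MM p := by
    have h1 := card_union_le D0 Z
    omega
  refine finish hT hq hA0 hP (X := X) (S := S) (H := H1) (Q := Q) (D := D0 ∪ Z) (UB := UB) (v := a) (x := i) (z := z0)
    (hSX haS) hiX haS hRai (hUB.trans sdiff_subset) (fun h => hUBF a h (mem_insert_self _ _))
    (fun h => hUBF i h (mem_insert_of_mem (mem_insert_self _ _))) hUBe (hH1O.trans sdiff_subset) ?_ (hLH a haL).1 ?_
    (hQO'.trans sdiff_subset) hQH1 ?_ (hLH a haL).2 ?_ hn ?_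
  · rw [disjoint_left]
    intro w hw hw'
    exact hUBF w hw' (mem_insert_of_mem (mem_insert_of_mem (mem_union_left _ hw)))
  · intro u hu hua huU
    have hmono : ∀ {P : Finset V}, P ⊆ H1 → (iN R P u).card ≤ (iN R H1 u).card := fun h => card_le_card (iN_mono h u)
    rcases Nat.lt_or_ge (dg R X i) (dg R X u) with h1 | h1
    · have huZ : u ∈ Z := mem_filter.2 ⟨hu, h1⟩
      obtain ⟨g1, g2, g3, g4⟩ := hZ1 u huZ
      have h2 : u ∉ Lad := by
        intro h3
        rcases (hmL u).1 h3 with h | h | h | ⟨b, hb, h | h | h⟩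
        · exact hua h
        · exact g4 (h ▸ hgS)
        · rw [h] at h1
          exact lt_irrefl _ h1
        · exact g4 (h ▸ (hN1' b hb).1)
        · exact huU (h ▸ hUBk b hb)
        · exact g4 (h ▸ (hN1' b hb).2.2.2.2.2.2.1)
      obtain ⟨h3, h4⟩ := hHE2 u (mem_sdiff.2 ⟨huZ, h2⟩)
      have h5 := hmono (P := HE) subset_union_right
      exact ⟨by omega, fun h => by have := h4 ((hZS u huZ).2 h); omega⟩
    · have h2 := hkey u (mem_filter.2 ⟨hu, h1⟩) hua huU
      have h3 := (hH u (mem_filter.2 ⟨hu, h1⟩)).2 h2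
      have h5 := hmono (P := H) subset_union_left
      exact ⟨by omega, fun _ => by omega⟩
  · rw [disjoint_left]
    intro w hw hw'
    exact hUBF w hw' (mem_insert_of_mem (mem_insert_of_mem (mem_union_right _ hw)))
  · intro u hu huD
    rw [mem_union, not_or] at huD
    refine hQ u (mem_filter.2 ⟨hu, ?_⟩) huD.1
    by_contra h
    exact huD.2 (mem_filter.2 ⟨hu, by omega⟩)
  · intro l r hA
    have h1 := hN2 l r hA
    omega

end BC36
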