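import Pool.Agent.BC36.Defs

/-!
# Binary out-arborescences in tournaments, module A: counting
-/

namespace BC36
open Finset AE32

variable {V : Type*} [DecidableEq V] {R : V → V → Prop}

omit [DecidableEq V] in
theorem card_oN_add_iN (hT : Tour R) {J : Finset V} {a : V} (ha : a ∉ J) :
    (oN R J a).card + (iN R J a).card = J.card := by
  classical
  rw [← card_union_of_disjoint]
  · congr 1
    ext y
    simp only [mem_union, mem_oN, mem_iN]
    constructor
    · rintro (h | h)
      · exact h.1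
      · exact h.1
    · intro hy
      rcases hT.tot a y (fun h => ha (h ▸ hy)) with h | h
      · exact Or.inl ⟨hy, h⟩
      · exact Or.inr ⟨hy, h⟩
  · rw [disjoint_left]
    intro y h1 h2
    exact hT.asym _ _ (mem_oN.1 h1).2 (mem_iN.1 h2).2

omit [DecidableEq V] in
/-- (A1) the basic identity -/
theorem ident (hT : Tour R) {X : Finset V} {x u : V} (hx : x ∈ X) (hu : u ∈ X) (h : R u x) :
    (iN R (oN R X x) u).card + dg R X u = 1 + (oN R (iN R X x) u).card + dg R X x := by
  classical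
  have h1 : (oN R (oN R X x) u).card + (iN R (oN R X x) u).card = (oN R X x).card := by
    apply card_oN_add_iN hT
    intro h2
    exact hT.asym _ _ h (mem_oN.1 h2).2
  have h2 : oN R X u = insert x (oN R (oN R X x) u ∪ oN R (iN R X x) u) := by
    ext y
    simp only [mem_insert, mem_union, mem_oN, mem_iN]
    constructor
    · rintro ⟨hy, huy⟩
      by_cases hyx : y = x
      · exact Or.inl hyx
      · rcases hT.tot x y (fun h => hyx h.symm) with h3 | h3
        · exact Or.inr (Or.inl ⟨⟨hy, h3⟩, huy⟩)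
        · exact Or.inr (Or.inr ⟨⟨hy, h3⟩, huy⟩)
    · rintro (rfl | h3 | h3)
      · exact ⟨hx, h⟩
      · exact ⟨h3.1.1, h3.2⟩
      · exact ⟨h3.1.1, h3.2⟩
  have h3 : (oN R X u).card = (oN R (oN R X x) u).card + (oN R (iN R X x) u).card + 1 := by
    rw [h2, card_insert_of_notMem, card_union_of_disjoint]
    · rw [disjoint_left]
      intro y h4 h5
      exact hT.asym _ _ (mem_oN.1 (mem_oN.1 h4).1).2 (mem_iN.1 (mem_oN.1 h5).1).2
    · intro h4
      rcases mem_union.1 h4 with h5 | h5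
      · exact hT.irr _ (mem_oN.1 (mem_oN.1 h5).1).2
      · exact hT.irr _ (mem_iN.1 (mem_oN.1 h5).1).2
  unfold dg
  omega

omit [DecidableEq V] in
/-- (A2) -/
theorem sum_oN (hT : Tour R) (J : Finset V) :
    2 * ∑ u ∈ J, (oN R J u).card = J.card * (J.card - 1) := by
  classical
  induction J using Finset.induction_on with
  | empty => simp
  | insert a J ha ih =>
    have h1 : (oN R (insert a J) a).card = (oN R J a).card := by
      congr 1
      ext y
      simp only [mem_oN, mem_insert]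
      constructor
      · rintro ⟨rfl | h, h2⟩
        · exact absurd h2 (hT.irr _)
        · exact ⟨h, h2⟩
      · rintro ⟨h, h2⟩
        exact ⟨Or.inr h, h2⟩
    have h2 : ∀ u ∈ J, (oN R (insert a J) u).card = (oN R J u).card + if R u a then 1 else 0 := by
      intro u hu
      by_cases hua : R u a
      · rw [if_pos hua]
        have : oN R (insert a J) u = insert a (oN R J u) := by
          ext y
          simp only [mem_oN, mem_insert]
          constructor
          · rintro ⟨rfl | h, h2⟩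
            · exact Or.inl rfl
            · exact Or.inr ⟨h, h2⟩
          · rintro (rfl | h)
            · exact ⟨Or.inl rfl, hua⟩
            · exact ⟨Or.inr h.1, h.2⟩
        rw [this, card_insert_of_notMem]
        intro h
        exact ha (mem_oN.1 h).1
      · rw [if_neg hua, add_zero]
        congr 1
        ext y
        simp only [mem_oN, mem_insert]
        constructor
        · rintro ⟨rfl | h, h2⟩
          · exact absurd h2 hua
          · exact ⟨h, h2⟩
        · rintro ⟨h, h2⟩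
          exact ⟨Or.inr h, h2⟩
    have h3 : ∑ u ∈ J, (if R u a then 1 else 0) = (iN R J a).card := by
      rw [← card_filter]
      congr 1
    rw [sum_insert ha, h1, sum_congr rfl h2, sum_add_distrib, h3, card_insert_of_notMem ha]
    have h4 := card_oN_add_iN hT ha
    have h5 : 2 * ((oN R J a).card + (∑ u ∈ J, (oN R J u).card + (iN R J a).card)) =
        2 * (∑ u ∈ J, (oN R J u).card) + 2 * ((oN R J a).card + (iN R J a).card) := by ring
    rw [h5, ih, h4, Nat.add_sub_cancel]
    cases hJ : J.card with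
    | zero => simp
    | succ n => rw [Nat.add_sub_cancel]; ring

omit [DecidableEq V] in
/-- (A3) -/
theorem few_low (hT : Tour R) {J : Finset V} {j : ℕ} (h : ∀ u ∈ J, (oN R J u).card ≤ j) :
    J.card ≤ 2 * j + 1 := by
  have h1 := sum_oN hT J
  have h2 : ∑ u ∈ J, (oN R J u).card ≤ J.card * j := by
    have := sum_le_card_nsmul J (fun u => (oN R J u).card) j h
    simpa using this
  by_contra hcon
  push Not at hcon
  obtain ⟨m, hm⟩ : ∃ m, J.card = m + 1 := ⟨J.card - 1, by omega⟩
  rw [hm, Nat.add_sub_cancel] at h1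
  rw [hm] at h2 hcon
  nlinarith

omit [DecidableEq V] in
/-- (A4) -/
theorem exists_high (hT : Tour R) {J : Finset V} (h : J.Nonempty) :
    ∃ u ∈ J, J.card ≤ 2 * (oN R J u).card + 1 := by
  by_contra hcon
  push Not at hcon
  have h1 := sum_oN hT J
  have h0 := h.card_pos
  have h2 : ∑ u ∈ J, (2 * (oN R J u).card + 2) ≤ ∑ _u ∈ J, J.card :=
    sum_le_sum (fun u hu => by have := hcon u hu; omega)
  rw [sum_add_distrib, ← mul_sum, sum_const, sum_const, h1] at h2
  obtain ⟨m, hm⟩ : ∃ m, J.card = m + 1 := ⟨J.card - 1, by omega⟩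
  rw [hm, Nat.add_sub_cancel] at h2
  simp only [smul_eq_mul] at h2
  nlinarith

omit [DecidableEq V] in
theorem double_count (O J : Finset V) :
    ∑ u ∈ J, (iN R O u).card = ∑ x ∈ O, (oN R J x).card := by
  classical
  have h1 : ∀ u, (iN R O u).card = ∑ x ∈ O, if R x u then 1 else 0 := by
    intro u
    rw [← card_filter]
    congr 1
  have h2 : ∀ x, (oN R J x).card = ∑ u ∈ J, if R x u then 1 else 0 := by
    intro u
    rw [← card_filter]
    congr 1
  simp only [h1, h2]
  exact sum_comm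

/-- (A5) greedy -/
theorem greedy {O J : Finset V} {N h : ℕ} (hO : O.card ≤ N) (hJ : J.card ≤ N)
    (hE : ∀ J' ⊆ J, J'.card * (J'.card + 1) ≤ 2 * (∑ u ∈ J', (iN R O u).card) + 2 * h * J'.card) (t : ℕ) :
    ∃ H ⊆ O, H.card ≤ t ∧ ∃ J₀ ⊆ J, (∀ u ∈ J, u ∉ J₀ → 1 ≤ (iN R H u).card) ∧
      (J₀.card ≤ 4 * h ∨ J₀.card * t ≤ 4 * N) := by
  induction t with
  | zero =>
    exact ⟨∅, by simp, by simp, J, Subset.refl _, fun u hu hu' => absurd hu hu', Or.inr (by simp)⟩
  | succ t ih =>
    obtain ⟨H, hHO, hHc, J₀, hJ₀, hhit, hor⟩ := ih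
    by_cases hm4 : J₀.card ≤ 4 * h
    · exact ⟨H, hHO, by omega, J₀, hJ₀, hhit, Or.inl hm4⟩
    push Not at hm4
    have hmt : J₀.card * t ≤ 4 * N := by
      rcases hor with h1 | h1
      · omega
      · exact h1
    set m := J₀.card with hm
    have hmN : m ≤ N := (card_le_card hJ₀).trans hJ
    have hE0 := hE J₀ hJ₀
    rw [← hm] at hE0
    set E := ∑ u ∈ J₀, (iN R O u).card with hEdef
    have hE4 : m * m ≤ 4 * E := by
      have h1 : 4 * h * m ≤ m * m := Nat.mul_le_mul_right m hm4.le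
      nlinarith
    have hEE : E = ∑ x ∈ O, (oN R J₀ x).card := double_count O J₀
    have hm0 : 0 < m := by omega
    have hEpos : 0 < E := by nlinarith
    have hOne : O.Nonempty := by
      rw [nonempty_iff_ne_empty]
      rintro rfl
      rw [hEE] at hEpos
      simp at hEpos
    -- averaging
    obtain ⟨x, hxO, hx⟩ : ∃ x ∈ O, E ≤ O.card * (oN R J₀ x).card := by
      by_contra hcon
      push Not at hcon
      have h1 : ∑ x ∈ O, O.card * (oN R J₀ x).card < ∑ _x ∈ O, E := sum_lt_sum_of_nonempty hOne hcon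
      rw [← mul_sum, ← hEE, sum_const, smul_eq_mul] at h1
      exact lt_irrefl _ h1
    set k := (oN R J₀ x).card with hk
    have hkm : k ≤ m := card_le_card oN_sub
    have hNk : m * m ≤ 4 * N * k := by
      have h1 : O.card * k ≤ N * k := Nat.mul_le_mul_right k hO
      nlinarith
    refine ⟨insert x H, insert_subset hxO hHO, (card_insert_le _ _).trans (by omega), J₀ \ oN R J₀ x,
      sdiff_subset.trans hJ₀, ?_, Or.inr ?_⟩
    · intro u hu hu'
      rw [Nat.one_le_iff_ne_zero, ← Nat.pos_iff_ne_zero, card_pos]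
      by_cases h1 : u ∈ J₀
      · have h2 : u ∈ oN R J₀ x := by
          by_contra h3
          exact hu' (mem_sdiff.2 ⟨h1, h3⟩)
        exact ⟨x, mem_iN.2 ⟨mem_insert_self _ _, (mem_oN.1 h2).2⟩⟩
      · have h2 := hhit u hu h1
        rw [Nat.one_le_iff_ne_zero, ← Nat.pos_iff_ne_zero, card_pos] at h2
        obtain ⟨y, hy⟩ := h2
        exact ⟨y, mem_iN.2 ⟨mem_insert_of_mem (mem_iN.1 hy).1, (mem_iN.1 hy).2⟩⟩
    · rw [card_sdiff_of_subset oN_sub, ← hm, ← hk]
      obtain ⟨r, hr⟩ : ∃ r, m = k + r := ⟨m - k, by omega⟩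
      have hmk : m - k = r := by omega
      rw [hmk]
      have hN0 : 0 < N := lt_of_lt_of_le hm0 hmN
      by_contra hcon
      push Not at hcon
      -- work in the integers
      have h1 : (m : ℤ) * t ≤ 4 * N := by exact_mod_cast hmt
      have h2 : (m : ℤ) * m ≤ 4 * N * k := by exact_mod_cast hNk
      have h3 : (m : ℤ) ≤ N := by exact_mod_cast hmN
      have h4 : (4 * N : ℤ) < r * (t + 1) := by exact_mod_cast hcon
      have h5 : (m : ℤ) = k + r := by exact_mod_cast hr
      have h6 : (0 : ℤ) < N := by exact_mod_cast hN0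
      have h7 : (0 : ℤ) ≤ t := Int.natCast_nonneg t
      have h8 : (0 : ℤ) < m := by exact_mod_cast hm0
      have h9 : (4 * N : ℤ) * (r * (t + 1)) ≤ (4 * N - m) * (4 * N + m) := by
        have e1 : (4 * N : ℤ) * (r * (t + 1)) = (4 * N * m - 4 * N * k) * (t + 1) := by rw [h5]; ring
        rw [e1]
        calc (4 * N * m - 4 * N * k : ℤ) * (t + 1) ≤ (4 * N * m - m * m) * (t + 1) :=
              mul_le_mul_of_nonneg_right (by linarith) (by linarith)
          _ = (4 * N - m) * (m * t + m) := by ring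
          _ ≤ (4 * N - m) * (4 * N + m) := mul_le_mul_of_nonneg_left (by linarith) (by linarith)
      have h10 : (4 * N : ℤ) * (4 * N) < 4 * N * (r * (t + 1)) :=
        mul_lt_mul_of_pos_left h4 (by linarith)
      nlinarith

/-- (A6) the counting hypothesis of `greedy` for nearly fresh sets -/
theorem fresh_edges (hT : Tour R) {X J O : Finset V} {x : V} {e l : ℕ} (hx : x ∈ X) (hJ : Fr R X x e J)
    (hO : O ⊆ oN R X x) (hl : (oN R X x \ O).card ≤ l) :
    ∀ J' ⊆ J, J'.card * (J'.card + 1) ≤ 2 * (∑ u ∈ J', (iN R O u).card) + 2 * (e + l) * J'.card := by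
  intro J' hJ'
  have hs := sum_oN hT J'
  have h1 : ∀ u ∈ J', (oN R J' u).card + 1 ≤ (iN R O u).card + (e + l) := by
    intro u hu
    have hu1 := hJ.1 (hJ' hu)
    have h2 := ident hT hx (mem_iN.1 hu1).1 (mem_iN.1 hu1).2
    have h3 := hJ.2 u (hJ' hu)
    have h4 : (oN R J' u).card ≤ (oN R (iN R X x) u).card :=
      card_le_card (oN_mono (hJ'.trans hJ.1) u)
    have h5 : (iN R (oN R X x) u).card ≤ (iN R O u).card + l := by
      have h6 : iN R (oN R X x) u ⊆ iN R O u ∪ (oN R X x \ O) := by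
        intro y hy
        rw [mem_union, mem_sdiff]
        by_cases hyO : y ∈ O
        · exact Or.inl (mem_iN.2 ⟨hyO, (mem_iN.1 hy).2⟩)
        · exact Or.inr ⟨(mem_iN.1 hy).1, hyO⟩
      exact (card_le_card h6).trans ((card_union_le _ _).trans (by omega))
    omega
  have h2 := sum_le_sum h1
  rw [sum_add_distrib, sum_add_distrib, sum_const, sum_const] at h2
  simp only [smul_eq_mul, mul_one] at h2
  have h3 : J'.card * (J'.card + 1) = J'.card * (J'.card - 1) + 2 * J'.card := by
    cases hc : J'.card with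
    | zero => simp
    | succ n => rw [Nat.add_sub_cancel]; ring
  rw [h3, ← hs]
  nlinarith

/-- one application of `greedy` -/
theorem greedy_one (hT : Tour R) {X J O : Finset V} {x : V} {e l s : ℕ} (hx : x ∈ X) (hJ : Fr R X x e J)
    (hO : O ⊆ oN R X x) (hl : (oN R X x \ O).card ≤ l) (hs : X.card ≤ s * s) (hs1 : 1 ≤ s) :
    ∃ H ⊆ O, H.card ≤ s ∧ ∃ B ⊆ J, B.card ≤ 4 * (e + l) + 4 * s ∧
      ∀ u ∈ J, u ∉ B → 1 ≤ (iN R H u).card := by
  have hOc : O.card ≤ s * s := (card_le_card (hO.trans oN_sub)).trans hs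
  have hJc : J.card ≤ s * s := (card_le_card (hJ.1.trans iN_sub)).trans hs
  obtain ⟨H, h1, h2, B, h3, h4, h5⟩ := greedy hOc hJc (fresh_edges hT hx hJ hO hl) s
  refine ⟨H, h1, h2, B, h3, ?_, h4⟩
  rcases h5 with h5 | h5
  · omega
  · have h6 : B.card ≤ 4 * s := by
      have h7 : B.card * s ≤ 4 * s * s := by rw [mul_assoc]; exact h5
      exact Nat.le_of_mul_le_mul_right h7 hs1
    omega

/-- a small subset of `O` which dominates everything in `J` that `O` dominates -/
theorem cover_one (hT : Tour R) {X J O : Finset V} {x : V} {e l s : ℕ} (hx : x ∈ X) (hJ : Fr R X x e J)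
    (hO : O ⊆ oN R X x) (hl : (oN R X x \ O).card ≤ l) (hs : X.card ≤ s * s) (hs1 : 1 ≤ s) :
    ∃ H ⊆ O, H.card ≤ 5 * s + 4 * (e + l) ∧ ∀ u ∈ J, 1 ≤ (iN R O u).card → 1 ≤ (iN R H u).card := by
  classical
  obtain ⟨H, h1, h2, B, h3, h4, h5⟩ := greedy_one hT hx hJ hO hl hs hs1
  have hch : ∀ u, ∃ c, (iN R O u).Nonempty → c ∈ iN R O u := by
    intro u
    by_cases h : (iN R O u).Nonempty
    · exact ⟨h.choose, fun _ => h.choose_spec⟩
    · exact ⟨u, fun h' => absurd h' h⟩
  choose c hc using hch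
  refine ⟨H ∪ (B.filter (fun u => (iN R O u).Nonempty)).image c, ?_, ?_, ?_⟩
  · apply union_subset h1
    intro y hy
    obtain ⟨u, hu, rfl⟩ := mem_image.1 hy
    exact iN_sub (hc u (mem_filter.1 hu).2)
  · refine (card_union_le _ _).trans ?_
    have h6 : ((B.filter (fun u => (iN R O u).Nonempty)).image c).card ≤ B.card :=
      card_image_le.trans (card_le_card (filter_subset _ _))
    omega
  · intro u hu hu1
    by_cases huB : u ∈ B
    · rw [Nat.one_le_iff_ne_zero, ← Nat.pos_iff_ne_zero, card_pos] at hu1 ⊢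
      exact ⟨c u, mem_iN.2 ⟨mem_union_right _ (mem_image_of_mem c (mem_filter.2 ⟨huB, hu1⟩)),
        (mem_iN.1 (hc u hu1)).2⟩⟩
    · exact (h5 u hu huB).trans (card_le_card (iN_mono subset_union_left u))

theorem sdiff_sdiff_card {O P H : Finset V} {l h : ℕ} (hl : (P \ O).card ≤ l) (hH : H.card ≤ h) :
    (P \ (O \ H)).card ≤ l + h := by
  have h1 : P \ (O \ H) ⊆ (P \ O) ∪ H := by
    intro y hy
    rw [mem_sdiff, mem_sdiff] at hy
    rw [mem_union, mem_sdiff]
    by_cases h2 : y ∈ H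
    · exact Or.inr h2
    · exact Or.inl ⟨hy.1, fun h3 => hy.2 ⟨h3, h2⟩⟩
  exact (card_le_card h1).trans ((card_union_le _ _).trans (by omega))

theorem two_le_iN {H₁ H₂ : Finset V} {u : V} (hd : Disjoint H₁ H₂) (h1 : 1 ≤ (iN R H₁ u).card)
    (h2 : 1 ≤ (iN R H₂ u).card) : 2 ≤ (iN R (H₁ ∪ H₂) u).card := by
  have h3 : iN R H₁ u ∪ iN R H₂ u ⊆ iN R (H₁ ∪ H₂) u :=
    union_subset (iN_mono subset_union_left u) (iN_mono subset_union_right u)
  have h4 : Disjoint (iN R H₁ u) (iN R H₂ u) :=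
    disjoint_of_subset_left iN_sub (disjoint_of_subset_right iN_sub hd)
  have h5 := card_le_card h3
  rw [card_union_of_disjoint h4] at h5
  omega

/-- (A7) the reserved set for the final host -/
theorem lemH (hT : Tour R) {X J O : Finset V} {x : V} {e l s : ℕ} (hx : x ∈ X) (hJ : Fr R X x e J)
    (hO : O ⊆ oN R X x) (hl : (oN R X x \ O).card ≤ l) (hs : X.card ≤ s * s) (hs1 : 1 ≤ s) :
    ∃ H ⊆ O, H.card ≤ 30 * s + 24 * (e + l) ∧ ∀ u ∈ J,
      (1 ≤ (iN R O u).card → 1 ≤ (iN R H u).card) ∧ (2 ≤ (iN R O u).card → 2 ≤ (iN R H u).card) := by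
  obtain ⟨Ha, ha1, ha2, ha3⟩ := cover_one hT hx hJ hO hl hs hs1
  obtain ⟨Hb, hb1, hb2, hb3⟩ := cover_one hT hx hJ (sdiff_subset.trans hO : O \ Ha ⊆ oN R X x)
    (sdiff_sdiff_card hl ha2) hs hs1
  have hd : Disjoint Ha Hb := disjoint_of_subset_right hb1 disjoint_sdiff
  refine ⟨Ha ∪ Hb, union_subset ha1 (hb1.trans sdiff_subset), ?_, ?_⟩
  · refine (card_union_le _ _).trans ?_
    omega
  · intro u hu
    refine ⟨fun h => (ha3 u hu h).trans (card_le_card (iN_mono subset_union_left u)), fun h => ?_⟩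
    by_cases h1 : 1 ≤ (iN R (O \ Ha) u).card
    · exact two_le_iN hd (ha3 u hu (by omega)) (hb3 u hu h1)
    · have h2 : iN R (O \ Ha) u = ∅ := by
        rw [← card_eq_zero]; omega
      have h3 : iN R O u ⊆ iN R (Ha ∪ Hb) u := by
        intro y hy
        rw [mem_iN] at hy ⊢
        refine ⟨?_, hy.2⟩
        by_contra h4
        have h5 : y ∈ iN R (O \ Ha) u :=
          mem_iN.2 ⟨mem_sdiff.2 ⟨hy.1, fun h6 => h4 (mem_union_left _ h6)⟩, hy.2⟩
        rw [h2] at h5
        simp at h5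
      exact h.trans (card_le_card h3)

/-- (A8) the reserved set for other pieces -/
theorem lemR (hT : Tour R) {X J O : Finset V} {x : V} {e l s : ℕ} (hx : x ∈ X) (hJ : Fr R X x e J)
    (hO : O ⊆ oN R X x) (hl : (oN R X x \ O).card ≤ l) (hs : X.card ≤ s * s) (hs1 : 1 ≤ s) :
    ∃ H ⊆ O, H.card ≤ 2 * s ∧ ∃ B ⊆ J, B.card ≤ 8 * (e + l) + 12 * s ∧
      ∀ u ∈ J, u ∉ B → 2 ≤ (iN R H u).card := by
  obtain ⟨Ha, ha1, ha2, Ba, ha3, ha4, ha5⟩ := greedy_one hT hx hJ hO hl hs hs1
  obtain ⟨Hb, hb1, hb2, Bb, hb3, hb4, hb5⟩ := greedy_one hT hx hJ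
    (sdiff_subset.trans hO : O \ Ha ⊆ oN R X x) (sdiff_sdiff_card hl ha2) hs hs1
  have hd : Disjoint Ha Hb := disjoint_of_subset_right hb1 disjoint_sdiff
  refine ⟨Ha ∪ Hb, union_subset ha1 (hb1.trans sdiff_subset), ?_, Ba ∪ Bb, union_subset ha3 hb3, ?_, ?_⟩
  · exact (card_union_le _ _).trans (by omega)
  · exact (card_union_le _ _).trans (by omega)
  · intro u hu huB
    rw [mem_union, not_or] at huB
    exact two_le_iN hd (ha5 u hu huB.1) (hb5 u hu huB.2)

end BC36
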