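import Pool.Agent.AE32.Defs

/-!
# Binary out-arborescences in tournaments with a constant number of extra vertices: definitions
-/

namespace BC36

open Finset AE32

variable {V : Type*} {R : V → V → Prop}

open scoped Classical in
/-- the out-neighbours of `x` in `X` -/
noncomputable def oN (R : V → V → Prop) (X : Finset V) (x : V) : Finset V := X.filter (fun y => R x y)

open scoped Classical in
/-- the in-neighbours of `x` in `X` -/
noncomputable def iN (R : V → V → Prop) (X : Finset V) (x : V) : Finset V := X.filter (fun y => R y x)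

/-- the out-degree of `x` in `X` -/
noncomputable def dg (R : V → V → Prop) (X : Finset V) (x : V) : ℕ := (oN R X x).card

@[simp] theorem mem_oN {X : Finset V} {x y : V} : y ∈ oN R X x ↔ y ∈ X ∧ R x y := by
  simp [oN]

@[simp] theorem mem_iN {X : Finset V} {x y : V} : y ∈ iN R X x ↔ y ∈ X ∧ R y x := by
  simp [iN]

theorem oN_sub {X : Finset V} {x : V} : oN R X x ⊆ X := fun _ h => (mem_oN.1 h).1

theorem iN_sub {X : Finset V} {x : V} : iN R X x ⊆ X := fun _ h => (mem_iN.1 h).1

theorem oN_mono {X Y : Finset V} (h : X ⊆ Y) (x : V) : oN R X x ⊆ oN R Y x := fun _ h' =>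
  mem_oN.2 ⟨h (mem_oN.1 h').1, (mem_oN.1 h').2⟩

theorem iN_mono {X Y : Finset V} (h : X ⊆ Y) (x : V) : iN R X x ⊆ iN R Y x := fun _ h' =>
  mem_iN.2 ⟨h (mem_iN.1 h').1, (mem_iN.1 h').2⟩

/-- `S` is a subset of `X`, every vertex of `X` outside `S` has an in-neighbour in `S`, and all of them but at most one
have at least two in-neighbours in `S`. -/
def Good (R : V → V → Prop) (S X : Finset V) : Prop :=
  S ⊆ X ∧ ∃ z, ∀ u ∈ X, u ∉ S → 1 ≤ (iN R S u).card ∧ (u ≠ z → 2 ≤ (iN R S u).card)

/-- the inductive property: `T` is embedded in `X` with the root in `S` whenever `X` has at least `q |T|` vertices -/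
def PP [DecidableEq V] (R : V → V → Prop) (q : ℕ → ℕ) (T : BT) : Prop :=
  ∀ S X : Finset V, q T.size ≤ X.card → Good R S X → ∃ U ⊆ X, Emb R T (fun y => y ∈ S) U

/-- `J` consists of in-neighbours of `x` in `X` whose out-degree is at most that of `x` plus `e`. -/
def Fr (R : V → V → Prop) (X : Finset V) (x : V) (e : ℕ) (J : Finset V) : Prop :=
  J ⊆ iN R X x ∧ ∀ u ∈ J, dg R X u ≤ dg R X x + e

open scoped Classical in
/-- `x` is nearly of maximum out-degree: at most `M` vertices have an out-degree larger than that of `x` plus `e`. -/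
def Hst (R : V → V → Prop) (X : Finset V) (M e : ℕ) (x : V) : Prop :=
  x ∈ X ∧ (X.filter (fun z => dg R X x + e < dg R X z)).card ≤ M

/-- the length of the ladder -/
def lam : BT → ℕ
  | .nil => 0
  | .node l r => if l.size + r.size = 0 then 0 else 1 + (if r.size ≤ l.size then lam r else lam l)

/-- the offset -/
def ee (p : ℕ) : ℕ := 3 * p + 2

/-- the number of top vertices -/
def MM (p : ℕ) : ℕ := 2 * (p + (2 * ee p + 1) * (ee p + 1)) + 2

/-- the junk -/
def Jk (s p : ℕ) : ℕ := 3000 * (p + 1) * (s + MM p)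

end BC36
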