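import Pool.Agent.BC36.CaseII
import Pool.Agent.BC36.CaseI

/-!
# The main step for binary nodes and the induction
-/

namespace BC36
open Finset AE32

variable {V : Type*} [DecidableEq V] {R : V → V → Prop}

/-- (D2) main step for binary nodes -/
theorem step_bin (hT : Tour R) {q : ℕ → ℕ} (hq : ∀ s, q s + 1 ≤ q (s + 1)) {A B : BT} (hB0 : B ≠ .nil)
    (hBA : B.size ≤ A.size) (hP : ∀ T : BT, T.size < A.size + B.size + 1 → PP R q T) {S X : Finset V} {s : ℕ}
    (hS : Good R S X) (hn : q (A.size + B.size + 1) ≤ X.card) (hs : X.card ≤ s * s) (hs1 : 1 ≤ s)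
    (hN1 : q B.size + Jk s (lam (.node A B)) ≤ X.card)
    (hN2 : ∀ l r, A = .node l r → q (min l.size r.size) + Jk s (lam (.node A B)) + B.size + 1 ≤ X.card) :
    ∃ U ⊆ X, Emb R (.node A B) (fun y => y ∈ S) U := by
  classical
  obtain ⟨δ, hδ1, hδ2⟩ : ∃ δ, (X.filter (fun x => δ < dg R X x)).card < MM (lam (.node A B)) ∧
      MM (lam (.node A B)) ≤ (X.filter (fun x => δ ≤ dg R X x)).card := by
    have hMM := le_MM (lam (.node A B))
    have hJk := Jk_eq s (lam (.node A B))
    have hP0 : MM (lam (.node A B)) ≤ (X.filter (fun x => 0 ≤ dg R X x)).card := by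
      rw [filter_true_of_mem (fun x _ => Nat.zero_le _)]
      omega
    refine ⟨Nat.findGreatest (fun d => MM (lam (.node A B)) ≤ (X.filter (fun x => d ≤ dg R X x)).card) X.card, ?_,
      Nat.findGreatest_spec (P := fun d => MM (lam (.node A B)) ≤ (X.filter (fun x => d ≤ dg R X x)).card)
        (Nat.zero_le _) hP0⟩
    set d := Nat.findGreatest (fun d => MM (lam (.node A B)) ≤ (X.filter (fun x => d ≤ dg R X x)).card) X.card with hd
    rcases Nat.lt_or_ge d X.card with h | h
    · have h1 := Nat.findGreatest_is_greatest (P := fun d => MM (lam (.node A B)) ≤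
        (X.filter (fun x => d ≤ dg R X x)).card) (n := X.card) (k := d + 1) (by omega) (by omega)
      exact not_le.1 h1
    · rw [filter_false_of_mem]
      · rw [card_empty]
        omega
      · intro x _
        have h1 : dg R X x ≤ X.card := card_le_card oN_sub
        omega
  by_cases h : ∃ x, Rz R S X δ (ee (lam (.node A B))) x
  · exact caseI hT hq hB0 hBA hP hS hn hs hs1 hN1 hN2 hδ1.le h
  · obtain ⟨hSX, z0, hG⟩ := hS
    refine caseII hT hq hB0 hBA hP hSX (z0 := z0) hG hn hs hs1 (lam_node hB0 hBA) hN1 hN2 hδ1 hδ2 ?_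
    intro x hx hxd
    refine ⟨fun hxS => h ⟨x, hx, hxd, Or.inl hxS⟩, fun v hv hvx => ⟨?_, ?_⟩⟩
    · by_contra h'
      exact h ⟨x, hx, hxd, Or.inr (Or.inl ⟨v, hv, not_lt.1 h', hvx⟩)⟩
    · intro y hy hyd hyx hvy
      exact h ⟨x, hx, hxd, Or.inr (Or.inr ⟨v, hv, y, hy, hyx, hvx, hvy, hyd⟩)⟩

theorem MM_mono {p p' : ℕ} (h : p ≤ p') : MM p ≤ MM p' := by
  unfold MM ee
  gcongr

theorem Jk_mono {s p p' : ℕ} (h : p ≤ p') : Jk s p ≤ Jk s p' := by
  have := MM_mono h
  unfold Jk
  gcongr

theorem lam_le_log {T : BT} (hT : T ≠ .nil) {n : ℕ} (hn : T.size ≤ n) : lam T ≤ Nat.log 2 n + 2 := by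
  have h1 := two_pow_lam hT
  have h2 : 2 ^ lam T ≤ n * 2 := by omega
  have h3 := Nat.le_log_of_pow_le (by norm_num : 1 < 2) h2
  have h4 : 1 ≤ n := (size_pos hT).trans hn
  rw [Nat.log_mul_base (by norm_num) (by omega)] at h3
  omega

/-- (E2) -/
theorem all_PP (hT : Tour R) {q : ℕ → ℕ} (hq : ∀ s, q s + 1 ≤ q (s + 1))
    (hE : ∀ a b c n : ℕ, b ≤ a → 2 * c + 1 ≤ a → q (a + b + 1) ≤ n →
      (1 ≤ b → q b + Jk (Nat.sqrt n + 1) (Nat.log 2 n + 2) ≤ n) ∧
      q c + Jk (Nat.sqrt n + 1) (Nat.log 2 n + 2) + b + 1 ≤ n) : ∀ T : BT, PP R q T := by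
  have key : ∀ m : ℕ, ∀ T : BT, T.size = m → PP R q T := by
    intro m
    induction m using Nat.strong_induction_on with
    | _ m ih =>
      intro T hTm
      have ih' : ∀ T' : BT, T'.size < T.size → PP R q T' := fun T' h => ih _ (hTm ▸ h) T' rfl
      have main : ∀ A B : BT, (BT.node A B).size = T.size → B.size ≤ A.size → PP R q (.node A B) := by
        intro A B hAB hBA S X hX hS
        simp only [BT.size] at hAB hX
        have hs : X.card ≤ (Nat.sqrt X.card + 1) * (Nat.sqrt X.card + 1) := (Nat.lt_succ_sqrt _).le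
        have hc2 : ∀ l r, A = .node l r → q (min l.size r.size) + Jk (Nat.sqrt X.card + 1) (Nat.log 2 X.card + 2) +
            B.size + 1 ≤ X.card := by
          intro l r hA
          refine (hE A.size B.size (min l.size r.size) X.card hBA ?_ hX).2
          rw [hA]
          simp only [BT.size]
          omega
        by_cases hB : B = .nil
        · subst hB
          simp only [BT.size, add_zero] at hX hAB
          refine step_un hT hq (fun T' h => ih' T' (by omega)) hS hX hs (by omega) ?_
          intro l r hA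
          have h1 := hc2 l r hA
          have h2 : Jk (Nat.sqrt X.card + 1) 1 ≤ Jk (Nat.sqrt X.card + 1) (Nat.log 2 X.card + 2) := Jk_mono (by omega)
          simp only [BT.size] at h1
          omega
        · have h1 := size_pos hB
          have hsz : A.size + B.size + 1 ≤ X.card := by
            have := q_add hq 0 (A.size + B.size + 1)
            rw [zero_add] at this
            omega
          have h3 := lam_le_log (T := .node A B) (by simp) (n := X.card) (by simpa only [BT.size] using hsz)
          have h4 := Jk_mono (s := Nat.sqrt X.card + 1) h3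
          have hA1 : 1 ≤ A.size := h1.trans hBA
          obtain ⟨l, r, hA⟩ : ∃ l r, A = .node l r := by
            cases A with
            | nil => simp [BT.size] at hA1
            | node l r => exact ⟨l, r, rfl⟩
          have h5 := (hE A.size B.size (min l.size r.size) X.card hBA (by rw [hA]; simp only [BT.size]; omega) hX).1 h1
          refine step_bin hT hq hB hBA (fun T' h => ih' T' (by omega)) hS hX hs (by omega) (by omega) ?_
          intro l r hA
          have := hc2 l r hA
          omega
      cases T with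
      | nil => exact fun S X _ _ => ⟨∅, by simp, rfl⟩
      | node A B =>
        rcases Nat.le_total B.size A.size with h | h
        · exact main A B rfl h
        · intro S X hX hS
          have hsz : (BT.node B A).size = (BT.node A B).size := by
            simp only [BT.size]
            omega
          obtain ⟨U, hU, hU'⟩ := main B A hsz h S X (by rw [hsz]; exact hX) hS
          exact ⟨U, hU, hU'.swap⟩
  exact fun T => key _ T rfl

end BC36
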