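import Pool.Agent.BC36.Split

/-!
# The ladder
-/

namespace BC36
open Finset AE32

variable {V : Type*} [DecidableEq V] {R : V → V → Prop}

/-- (C1) -/
theorem two_pow_lam {T : BT} (h : T ≠ .nil) : 2 ^ lam T ≤ 2 * T.size := by
  induction T with
  | nil => exact absurd rfl h
  | node l r ihl ihr =>
    rw [lam]
    by_cases h0 : l.size + r.size = 0
    · rw [if_pos h0]
      simp only [BT.size]
      omega
    · rw [if_neg h0, pow_add, pow_one]
      simp only [BT.size]
      by_cases h1 : r.size ≤ l.size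
      · rw [if_pos h1]
        by_cases h2 : r = .nil
        · rw [h2, show lam BT.nil = 0 from rfl]
          simp only [BT.size]
          omega
        · have := ihr h2
          omega
      · rw [if_neg h1]
        by_cases h2 : l = .nil
        · rw [h2, show lam BT.nil = 0 from rfl]
          simp only [BT.size]
          omega
        · have := ihl h2
          omega

omit [DecidableEq V] in
/-- inserting a vertex into a path of a tournament -/
theorem ham_ins (hT : Tour R) (x : V) : ∀ L : List V, x ∉ L → L.IsChain R →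
    ∃ L' : List V, L'.Perm (x :: L) ∧ L'.IsChain R ∧ (L'.head? = some x ∨ L'.head? = L.head?) := by
  intro L
  induction L with
  | nil => exact fun _ _ => ⟨[x], List.Perm.refl _, List.isChain_singleton x, Or.inl rfl⟩
  | cons b L ih =>
    intro hx hL
    rw [List.isChain_cons] at hL
    by_cases h : R x b
    · exact ⟨x :: b :: L, List.Perm.refl _, List.isChain_cons_cons.2 ⟨h, List.isChain_cons.2 hL⟩, Or.inl rfl⟩
    · have hxb : x ≠ b := fun h' => hx (by rw [h']; exact List.mem_cons_self)
      have hbx : R b x := (hT.tot x b hxb).resolve_left h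
      obtain ⟨L', h1, h2, h3⟩ := ih (fun h' => hx (List.mem_cons_of_mem _ h')) hL.2
      refine ⟨b :: L', (h1.cons b).trans (List.Perm.swap x b L), List.isChain_cons.2 ⟨?_, h2⟩, Or.inr rfl⟩
      intro y hy
      rcases h3 with h3 | h3
      · rw [h3] at hy
        simp only [Option.mem_def, Option.some.injEq] at hy
        rw [← hy]
        exact hbx
      · rw [h3] at hy
        exact hL.1 y hy

/-- (C2) Hamiltonian path -/
theorem ham (hT : Tour R) (I : Finset V) : ∃ L : List V, L.Nodup ∧ L.toFinset = I ∧ L.IsChain R := by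
  induction I using Finset.induction_on with
  | empty => exact ⟨[], List.nodup_nil, rfl, List.isChain_nil⟩
  | insert x I hx ih =>
    obtain ⟨L, h1, h2, h3⟩ := ih
    have hxL : x ∉ L := by
      rw [← List.mem_toFinset, h2]
      exact hx
    obtain ⟨L', h4, h5, _⟩ := ham_ins hT x L hxL h3
    refine ⟨L', ?_, ?_, h5⟩
    · rw [h4.nodup_iff, List.nodup_cons]
      exact ⟨hxL, h1⟩
    · rw [List.toFinset_eq_of_perm _ _ h4, List.toFinset_cons, h2]

/-- the conditions on a ladder -/
structure Lad (R : V → V → Prop) (X : Finset V) (M e : ℕ) (k v' : V → V) (L : List V) (F : Finset V) : Prop where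
  ch : L.IsChain R
  nd : L.Nodup
  hX : ∀ a ∈ L, a ∈ X
  kX : ∀ a ∈ L, k a ∈ X
  vX : ∀ a ∈ L, v' a ∈ X
  ak : ∀ a ∈ L, R a (k a)
  av : ∀ a ∈ L, R a (v' a)
  hst : ∀ a ∈ L, Hst R X M e (k a)
  aF : ∀ a ∈ L, a ∉ F
  kF : ∀ a ∈ L, k a ∉ F
  vF : ∀ a ∈ L, v' a ∉ F
  nk : ∀ a ∈ L, ∀ b ∈ L, a ≠ k b
  nv : ∀ a ∈ L, ∀ b ∈ L, a ≠ v' b
  kv : ∀ a ∈ L, ∀ b ∈ L, k a ≠ v' b
  ki : ∀ a ∈ L, ∀ b ∈ L, k a = k b → a = b
  vi : ∀ a ∈ L, ∀ b ∈ L, v' a = v' b → a = b

/-- the vertices of the ladder -/
def ladV (k v' : V → V) (L : List V) : Finset V := L.toFinset ∪ (L.toFinset.image k ∪ L.toFinset.image v')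

theorem ladV_card {k v' : V → V} {L : List V} : (ladV k v' L).card ≤ 3 * L.length := by
  have h1 : L.toFinset.card ≤ L.length := List.toFinset_card_le L
  have h2 : (L.toFinset.image k).card ≤ L.length := card_image_le.trans h1
  have h3 : (L.toFinset.image v').card ≤ L.length := card_image_le.trans h1
  have h4 := card_union_le L.toFinset (L.toFinset.image k ∪ L.toFinset.image v')
  have h5 := card_union_le (L.toFinset.image k) (L.toFinset.image v')
  unfold ladV
  omega

theorem mem_ladV {k v' : V → V} {L : List V} {a : V} (h : a ∈ L) :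
    a ∈ ladV k v' L ∧ k a ∈ ladV k v' L ∧ v' a ∈ ladV k v' L := by
  have h1 : a ∈ L.toFinset := List.mem_toFinset.2 h
  refine ⟨mem_union_left _ h1, mem_union_right _ (mem_union_left _ (mem_image_of_mem k h1)),
    mem_union_right _ (mem_union_right _ (mem_image_of_mem v' h1))⟩

/-- what the ladder gives for one tree -/
def LadOut (R : V → V → Prop) (k : V → V) (X F : Finset V) (v : V) (L : List V) (B : BT) : Prop :=
  ∃ U ⊆ X \ F, Rt R B v U ∧ ∀ a ∈ v :: L, k a ∈ U

theorem LL_core (hT : Tour R) {q : ℕ → ℕ} (hq : ∀ s, q s + 1 ≤ q (s + 1)) {X : Finset V} {M e s : ℕ}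
    (hs : X.card ≤ s * s) (hs1 : 1 ≤ s) {k v' : V → V} {g m : BT} (hg : g ≠ .nil)
    (hP : ∀ T : BT, T.size < g.size → PP R q T)
    (IH : 2 ≤ m.size → ∀ (v : V) (L : List V) (F : Finset V), (v :: L).length = lam m →
      Lad R X M e k v' (v :: L) F →
      q m.size + 17 * (F.card + 3 * lam m) + 68 * s * lam m + (M + 16 * e + 60 * s) ≤ X.card →
      LadOut R k X F v L m) (v : V) (L : List V) (F : Finset V) (hlen : (v :: L).length = 1 + lam m)
    (hL : Lad R X M e k v' (v :: L) F)
    (hc : q (g.size + m.size + 1) + 17 * (F.card + 3 * (1 + lam m)) + 68 * s * (1 + lam m) + (M + 16 * e + 60 * s)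
      ≤ X.card) :
    LadOut R k X F v L (.node g m) := by
  classical
  have hvm : v ∈ v :: L := List.mem_cons_self
  -- the set reserved for hosting `g`
  set F1 : Finset V := F ∪ (ladV k v' (v :: L)).erase (k v) with hF1
  have hF1c : F1.card ≤ F.card + 3 * (1 + lam m) := by
    have h1 := card_union_le F ((ladV k v' (v :: L)).erase (k v))
    have h2 := card_erase_le (s := ladV k v' (v :: L)) (a := k v)
    have h3 := ladV_card (k := k) (v' := v') (L := v :: L)
    rw [hlen] at h3
    rw [hF1]
    omega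
  have hkF1 : k v ∉ F1 := by
    rw [hF1, mem_union]
    rintro (h | h)
    · exact hL.kF v hvm h
    · exact absurd rfl (mem_erase.1 h).1
  obtain ⟨Q, hQX, hQF, hkQ, hQc, hQ⟩ := HL hT hq hg hP (hL.hst v hvm) hs hs1 hkF1 hF1c
  have hvF1 : v ∈ F1 := mem_union_right _ (mem_erase.2 ⟨hL.nk v hvm v hvm, (mem_ladV hvm).1⟩)
  have hv'F1 : v' v ∈ F1 := mem_union_right _ (mem_erase.2 ⟨fun h => hL.kv v hvm v hvm h.symm, (mem_ladV hvm).2.2⟩)
  have hQF' : ∀ a ∈ F1, a ∉ Q := fun a ha h => disjoint_left.1 hQF h ha
  -- the embedding of the smaller child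
  obtain ⟨U2, hU2, hE2, hvU2, hkU2, hQU2, hk2⟩ : ∃ U2 ⊆ X \ F, Emb R m (R v) U2 ∧ v ∉ U2 ∧ k v ∉ U2 ∧
      Disjoint Q U2 ∧ ∀ a ∈ L, k a ∈ U2 := by
    rcases Nat.lt_or_ge m.size 2 with hm | hm
    · -- no more ladder vertices
      have hlm : lam m = 0 := by
        cases m with
        | nil => rfl
        | node a b =>
          simp only [BT.size] at hm
          rw [lam, if_pos (by omega)]
      have hL0 : L = [] := by
        rw [hlm] at hlen
        simpa using hlen
      subst hL0
      rcases Nat.lt_or_ge m.size 1 with hm0 | hm1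
      · have : m = .nil := by
          cases m with
          | nil => rfl
          | node a b => simp only [BT.size] at hm0; omega
        subst this
        exact ⟨∅, empty_subset _, rfl, by simp, by simp, disjoint_empty_right _, by simp⟩
      · have : m = .node .nil .nil := size_one (by omega)
        subst this
        refine ⟨{v' v}, ?_, emb_leaf (hL.av v hvm), ?_, ?_, ?_, by simp⟩
        · rw [singleton_subset_iff, mem_sdiff]
          exact ⟨hL.vX v hvm, hL.vF v hvm⟩
        · rw [mem_singleton]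
          exact hL.nv v hvm v hvm
        · rw [mem_singleton]
          exact hL.kv v hvm v hvm
        · rw [disjoint_singleton_right]
          exact hQF' _ hv'F1
    · -- the ladder goes on
      have hlm := lam_pos hm
      obtain ⟨v2, L2, rfl⟩ : ∃ v2 L2, L = v2 :: L2 := by
        cases L with
        | nil =>
          simp only [List.length_cons, List.length_nil] at hlen
          omega
        | cons a b => exact ⟨a, b, rfl⟩
      set F2 : Finset V := F ∪ (Q ∪ {v, v' v, k v}) with hF2
      have hF2c : F2.card ≤ F.card + 4 * s + 3 := by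
        have h1 := card_union_le F (Q ∪ {v, v' v, k v})
        have h2 := card_union_le Q {v, v' v, k v}
        have h3 : ({v, v' v, k v} : Finset V).card ≤ 3 := card_le_three
        rw [hF2]
        omega
      have hin : ∀ a ∈ v2 :: L2, a ∈ v :: v2 :: L2 := fun a ha => List.mem_cons_of_mem _ ha
      have hne : ∀ a ∈ v2 :: L2, a ≠ v := by
        rintro a ha rfl
        exact (List.nodup_cons.1 hL.nd).1 ha
      have hLad2 : Lad R X M e k v' (v2 :: L2) F2 := by
        refine ⟨(List.isChain_cons.1 hL.ch).2, (List.nodup_cons.1 hL.nd).2, fun a ha => hL.hX a (hin a ha),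
          fun a ha => hL.kX a (hin a ha), fun a ha => hL.vX a (hin a ha), fun a ha => hL.ak a (hin a ha),
          fun a ha => hL.av a (hin a ha), fun a ha => hL.hst a (hin a ha), ?_, ?_, ?_,
          fun a ha b hb => hL.nk a (hin a ha) b (hin b hb), fun a ha b hb => hL.nv a (hin a ha) b (hin b hb),
          fun a ha b hb => hL.kv a (hin a ha) b (hin b hb), fun a ha b hb => hL.ki a (hin a ha) b (hin b hb),
          fun a ha b hb => hL.vi a (hin a ha) b (hin b hb)⟩
        · intro a ha hmem
          rw [hF2] at hmem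
          simp only [mem_union, mem_insert, mem_singleton] at hmem
          rcases hmem with h | h | h | h | h
          · exact hL.aF a (hin a ha) h
          · exact hQF' a (mem_union_right _ (mem_erase.2 ⟨hL.nk a (hin a ha) v hvm, (mem_ladV (hin a ha)).1⟩)) h
          · exact hne a ha h
          · exact hL.nv a (hin a ha) v hvm h
          · exact hL.nk a (hin a ha) v hvm h
        · intro a ha hmem
          rw [hF2] at hmem
          simp only [mem_union, mem_insert, mem_singleton] at hmem
          rcases hmem with h | h | h | h | h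
          · exact hL.kF a (hin a ha) h
          · refine hQF' (k a) (mem_union_right _ (mem_erase.2 ⟨?_, (mem_ladV (hin a ha)).2.1⟩)) h
            intro h'
            exact hne a ha (hL.ki a (hin a ha) v hvm h')
          · exact hL.nk v hvm a (hin a ha) h.symm
          · exact hL.kv a (hin a ha) v hvm h
          · exact hne a ha (hL.ki a (hin a ha) v hvm h)
        · intro a ha hmem
          rw [hF2] at hmem
          simp only [mem_union, mem_insert, mem_singleton] at hmem
          rcases hmem with h | h | h | h | h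
          · exact hL.vF a (hin a ha) h
          · refine hQF' (v' a) (mem_union_right _ (mem_erase.2 ⟨?_, (mem_ladV (hin a ha)).2.2⟩)) h
            exact fun h' => hL.kv v hvm a (hin a ha) h'.symm
          · exact hL.nv v hvm a (hin a ha) h.symm
          · exact hne a ha (hL.vi a (hin a ha) v hvm h)
          · exact hL.kv v hvm a (hin a ha) h.symm
      have hlen2 : (v2 :: L2).length = lam m := by
        simp only [List.length_cons] at hlen ⊢
        omega
      have hnum : q m.size + 17 * (F2.card + 3 * lam m) + 68 * s * lam m + (M + 16 * e + 60 * s) ≤ X.card := by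
        have h1 : q m.size + 51 ≤ q (g.size + m.size + 1) + 51 :=
          Nat.add_le_add_right (q_mono hq (by omega)) _
        have h2 : 68 * s * (1 + lam m) = 68 * s + 68 * s * lam m := by ring
        rw [h2] at hc
        omega
      obtain ⟨U2, h1, h2, h3⟩ := IH hm v2 L2 F2 hlen2 hLad2 hnum
      have h4 : ∀ a ∈ F2, a ∉ U2 := fun a ha h => (mem_sdiff.1 (h1 h)).2 ha
      refine ⟨U2, fun a ha => ?_, h2.under (List.isChain_cons_cons.1 hL.ch).1, h4 v (by simp [hF2]), h4 (k v) (by simp [hF2]),
        ?_, h3⟩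
      · have := mem_sdiff.1 (h1 ha)
        exact mem_sdiff.2 ⟨this.1, fun h => this.2 (mem_union_left _ h)⟩
      · rw [disjoint_left]
        intro a ha
        exact h4 a (by simp [hF2, ha])
  -- the embedding of the larger child
  have hU2c : U2.card = m.size := hE2.card
  set W : Finset V := X \ (F ∪ ({v, v' v} ∪ U2)) with hW
  have hkW : k v ∈ W := by
    rw [hW, mem_sdiff]
    refine ⟨hL.kX v hvm, ?_⟩
    simp only [mem_union, mem_insert, mem_singleton]
    rintro (h | (h | h) | h)
    · exact hL.kF v hvm h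
    · exact hL.nk v hvm v hvm h.symm
    · exact hL.kv v hvm v hvm h
    · exact hkU2 h
  have hQW : Q ⊆ W := by
    intro a ha
    rw [hW, mem_sdiff]
    refine ⟨hQX ha, ?_⟩
    simp only [mem_union, mem_insert, mem_singleton]
    rintro (h | (h | h) | h)
    · exact hQF' a (mem_union_left _ h) ha
    · exact hQF' a (h ▸ hvF1) ha
    · exact hQF' a (h ▸ hv'F1) ha
    · exact disjoint_left.1 hQU2 ha h
  have hWc : (X \ W).card ≤ F.card + 2 + m.size := by
    have h1 : X \ W ⊆ F ∪ ({v, v' v} ∪ U2) := by
      intro a ha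
      rw [mem_sdiff, hW, mem_sdiff] at ha
      by_contra h
      exact ha.2 ⟨ha.1, h⟩
    have h2 := card_le_card h1
    have h3 := card_union_le F ({v, v' v} ∪ U2)
    have h4 := card_union_le {v, v' v} U2
    have h5 : ({v, v' v} : Finset V).card ≤ 2 := card_le_two
    omega
  obtain ⟨U1, hU1, hE1⟩ := hQ W sdiff_subset hkW hQW (by
    have h1 : q g.size + (m.size + 1) ≤ q (g.size + m.size + 1) := q_add hq g.size (m.size + 1)
    have h2 : 68 * s * (1 + lam m) = 68 * s + 68 * s * lam m := by ring
    rw [h2] at hc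
    omega)
  have hU1' : ∀ a ∈ U1, a ∈ X ∧ a ∉ F ∧ a ≠ v ∧ a ∉ U2 := by
    intro a ha
    have h1 := hU1 ha
    rw [hW, mem_sdiff] at h1
    simp only [mem_union, mem_insert, mem_singleton, not_or] at h1
    exact ⟨h1.1, h1.2.1, h1.2.2.1.1, h1.2.2.2⟩
  refine ⟨insert v (U1 ∪ U2), ?_, rt_mk (hE1.under (hL.ak v hvm)) hE2 (fun h => (hU1' v h).2.2.1 rfl) hvU2
    (disjoint_left.2 fun a ha => (hU1' a ha).2.2.2), ?_⟩
  · intro a ha
    simp only [mem_insert, mem_union] at ha
    rcases ha with rfl | h | h
    · exact mem_sdiff.2 ⟨hL.hX a hvm, hL.aF a hvm⟩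
    · exact mem_sdiff.2 ⟨(hU1' a h).1, (hU1' a h).2.1⟩
    · exact hU2 h
  · intro a ha
    rcases List.mem_cons.1 ha with rfl | h
    · exact mem_insert_of_mem (mem_union_left _ (hE1.mem hg))
    · exact mem_insert_of_mem (mem_union_right _ (hk2 a h))

/-- (C3) the ladder, packed form -/
theorem LL_pack (hT : Tour R) {q : ℕ → ℕ} (hq : ∀ s, q s + 1 ≤ q (s + 1)) {X : Finset V} {M e s : ℕ}
    (hs : X.card ≤ s * s) (hs1 : 1 ≤ s) {k v' : V → V} : ∀ (B : BT), 2 ≤ B.size →
    (∀ T : BT, T.size < B.size → PP R q T) → ∀ (v : V) (L : List V) (F : Finset V),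
    (v :: L).length = lam B → Lad R X M e k v' (v :: L) F →
    q B.size + 17 * (F.card + 3 * lam B) + 68 * s * lam B + (M + 16 * e + 60 * s) ≤ X.card →
    LadOut R k X F v L B := by
  intro B
  induction B with
  | nil =>
    intro h
    simp [BT.size] at h
  | node l r ihl ihr =>
    intro h2 hP v L F hlen hL hc
    have h2' : 1 ≤ l.size + r.size := by
      simp only [BT.size] at h2
      omega
    by_cases hlr : r.size ≤ l.size
    · have hlam : lam (.node l r) = 1 + lam r := by
        rw [lam, if_neg (by omega), if_pos hlr]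
      rw [hlam] at hlen hc
      have hl0 : l ≠ .nil := by
        rintro rfl
        simp only [BT.size] at hlr h2'
        omega
      refine LL_core hT hq hs hs1 hl0 (fun T h => hP T (by simp only [BT.size]; omega))
        (fun hm => ihr hm (fun T h => hP T (by simp only [BT.size]; omega))) v L F hlen hL hc
    · have hlam : lam (.node l r) = 1 + lam l := by
        rw [lam, if_neg (by omega), if_neg hlr]
      rw [hlam] at hlen hc
      have hr0 : r ≠ .nil := by
        rintro rfl
        simp only [BT.size] at hlr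
        omega
      have hc' : q (r.size + l.size + 1) + 17 * (F.card + 3 * (1 + lam l)) + 68 * s * (1 + lam l) +
          (M + 16 * e + 60 * s) ≤ X.card := by
        rw [add_comm r.size l.size]
        exact hc
      obtain ⟨U, h3, h4, h5⟩ := LL_core hT hq hs hs1 hr0 (fun T h => hP T (by simp only [BT.size]; omega))
        (fun hm => ihl hm (fun T h => hP T (by simp only [BT.size]; omega))) v L F hlen hL hc'
      exact ⟨U, h3, Emb.swap h4, h5⟩

/-- (C3) the ladder -/
theorem LL (hT : Tour R) {q : ℕ → ℕ} (hq : ∀ s, q s + 1 ≤ q (s + 1)) {X : Finset V} {M e s : ℕ}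
    (hs : X.card ≤ s * s) (hs1 : 1 ≤ s) {k v' : V → V} : ∀ (B : BT), 2 ≤ B.size →
    (∀ T : BT, T.size < B.size → PP R q T) → ∀ (v : V) (L : List V) (F : Finset V),
    (v :: L).length = lam B → (v :: L).IsChain R → (v :: L).Nodup →
    (∀ a ∈ v :: L, a ∈ X ∧ k a ∈ X ∧ v' a ∈ X ∧ R a (k a) ∧ R a (v' a) ∧ Hst R X M e (k a) ∧
      a ∉ F ∧ k a ∉ F ∧ v' a ∉ F) →
    (∀ a ∈ v :: L, ∀ b ∈ v :: L, a ≠ k b ∧ a ≠ v' b ∧ k a ≠ v' b ∧ (k a = k b → a = b) ∧ (v' a = v' b → a = b)) →
    q B.size + 17 * (F.card + 3 * lam B) + 68 * s * lam B + (M + 16 * e + 60 * s) ≤ X.card →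
    ∃ U ⊆ X \ F, Rt R B v U ∧ ∀ a ∈ v :: L, k a ∈ U := by
  intro B h2 hP v L F hlen hch hnd h3 h4 hc
  refine LL_pack hT hq hs hs1 B h2 hP v L F hlen ⟨hch, hnd, fun a ha => (h3 a ha).1, fun a ha => (h3 a ha).2.1,
    fun a ha => (h3 a ha).2.2.1, fun a ha => (h3 a ha).2.2.2.1, fun a ha => (h3 a ha).2.2.2.2.1,
    fun a ha => (h3 a ha).2.2.2.2.2.1, fun a ha => (h3 a ha).2.2.2.2.2.2.1, fun a ha => (h3 a ha).2.2.2.2.2.2.2.1,
    fun a ha => (h3 a ha).2.2.2.2.2.2.2.2, fun a ha b hb => (h4 a ha b hb).1, fun a ha b hb => (h4 a ha b hb).2.1,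
    fun a ha b hb => (h4 a ha b hb).2.2.1, fun a ha b hb => (h4 a ha b hb).2.2.2.1,
    fun a ha b hb => (h4 a ha b hb).2.2.2.2⟩ hc

end BC36
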