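import Pool.Agent.BC36.Num
import Pool.Agent.BC36.Glue
import Pool.Agent.AE95.Cherry

/-!
# The main theorem
-/

namespace BC36
open Finset AE32

theorem final_out {k n C : ℕ} {R : Fin n → Fin n → Prop} {q : ℕ → ℕ} (hC : ∀ m, q m ≤ m + C)
    (hPP : ∀ T : BT, PP R q T) {E : Fin (k + 1) → Fin (k + 1) → Prop}
    (hanti : ∀ a b, E a b → ¬ E b a) (hG : (SimpleGraph.fromRel E).IsTree)
    (hin : ∀ a b c, E a c → E b c → a = b) (hout : ∀ v, {w | E v w}.ncard ≤ 2) (hn : k + 1 + C ≤ n) :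
    ∃ f : Fin (k + 1) → Fin n, Function.Injective f ∧ ∀ a b, E a b → R (f a) (f b) := by
  classical
  obtain ⟨h, hE⟩ := GS78.exists_rank hanti hG.2
  obtain ⟨ρ, hρ⟩ := exists_root hin hE hG.1
  obtain ⟨T, hT1, hT2, -, hT4⟩ := AE95.exists_bt (R := R) (P := Finset.univ) hE hin hout (fun _ _ => Finset.mem_univ _) _ ρ rfl
  have h1 : T.size = k + 1 := by rw [hT2, hρ, Finset.card_univ, Fintype.card_fin]
  obtain ⟨U, -, hU⟩ := hPP T univ univ (by
    rw [Finset.card_univ, Fintype.card_fin, h1]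
    exact (hC _).trans hn) ⟨Subset.rfl, ⟨0, by omega⟩, fun u _ hu => absurd (mem_univ u) hu⟩
  obtain ⟨x, -, hx⟩ := hU.root hT1
  obtain ⟨f, -, -, hf3, hf4⟩ := hT4 x _ hx
  rw [hρ] at hf3 hf4
  exact ⟨f, fun a b hab => hf3 a (Finset.mem_univ _) b (Finset.mem_univ _) hab,
    fun a b hab => hf4 a (Finset.mem_univ _) b (Finset.mem_univ _) hab⟩

theorem fromRel_swap {τ : Type*} (E : τ → τ → Prop) : SimpleGraph.fromRel (fun a b => E b a) = SimpleGraph.fromRel E := by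
  ext a b
  simp only [SimpleGraph.fromRel_adj]
  tauto

/-- (E3) the final theorem -/
theorem final : ∃ C : ℕ, ∀ k n : ℕ, k + C ≤ n → ∀ R : Fin n → Fin n → Prop, Tour R →
    ∀ E : Fin (k + 1) → Fin (k + 1) → Prop, (∀ a b, E a b → ¬ E b a) → (SimpleGraph.fromRel E).IsTree →
    ((∀ a b c, E a c → E b c → a = b) ∧ (∀ v, {w | E v w}.ncard ≤ 2) ∨
      (∀ a b c, E c a → E c b → a = b) ∧ (∀ v, {w | E w v}.ncard ≤ 2)) →
    ∃ f : Fin (k + 1) → Fin n, Function.Injective f ∧ ∀ a b, E a b → R (f a) (f b) := by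
  obtain ⟨q, hq, ⟨C, hC⟩, hE⟩ := exists_q
  refine ⟨1 + C, fun k n hn R hT E hanti hG h => ?_⟩
  rcases h with ⟨h1, h2⟩ | ⟨h1, h2⟩
  · exact final_out hC (all_PP hT hq hE) hanti hG h1 h2 (by omega)
  · have hT' : Tour (fun a b => R b a) := ⟨hT.irr, fun a b hab => (hT.tot a b hab).symm, fun a b hab => hT.asym b a hab⟩
    obtain ⟨f, hf1, hf2⟩ := final_out hC (all_PP hT' hq hE) (E := fun a b => E b a) (fun a b hab => hanti b a hab)
      (by rw [fromRel_swap]; exact hG) (fun a b c hac hbc => h1 a b c hac hbc) h2 (by omega)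
    exact ⟨f, hf1, fun a b hab => hf2 b a hab⟩

end BC36
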