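import Pool.Agent.BC36.Pre

/-!
# Numerics: the size function
-/

namespace BC36

/-- a cubic polynomial is eventually below an exponential -/
theorem cube_le_pow (A : ℕ) : ∃ j0 : ℕ, ∀ j ≥ j0, A * (j + 1) ^ 3 ≤ 2 ^ j := by
  have h := tendsto_pow_const_div_const_pow_of_one_lt 3 (r := (2 : ℝ)) (by norm_num)
  have h1 : ∀ᶠ n : ℕ in Filter.atTop, (n : ℝ) ^ 3 / 2 ^ n < 1 / (2 * (A : ℝ) + 1) :=
    h.eventually (gt_mem_nhds (by positivity))
  obtain ⟨N, hN⟩ := Filter.eventually_atTop.1 h1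
  refine ⟨N, fun j hj => ?_⟩
  have h2 := hN (j + 1) (by omega)
  rw [div_lt_div_iff₀ (by positivity) (by positivity)] at h2
  have h3 : (A : ℝ) * ((j : ℝ) + 1) ^ 3 ≤ 2 ^ j := by
    push_cast at h2
    have h4 : (2 : ℝ) ^ (j + 1) = 2 * 2 ^ j := by ring
    rw [h4] at h2
    have h5 : (0 : ℝ) ≤ ((j : ℝ) + 1) ^ 3 := by positivity
    nlinarith
  exact_mod_cast h3

theorem MM_le (p : ℕ) : MM p ≤ 36 * (p + 1) ^ 2 := by
  unfold MM ee
  nlinarith

theorem Jk_le {s p : ℕ} (hs : 1 ≤ s) : Jk s p ≤ 111000 * (p + 1) ^ 3 * s := by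
  unfold Jk
  have h1 := MM_le p
  have h2 : s + MM p ≤ 37 * (p + 1) ^ 2 * s := by
    have h3 : 36 * (p + 1) ^ 2 ≤ 36 * (p + 1) ^ 2 * s := Nat.le_mul_of_pos_right _ hs
    have h4 : s ≤ (p + 1) ^ 2 * s := Nat.le_mul_of_pos_left _ (by positivity)
    have h5 : 37 * (p + 1) ^ 2 * s = 36 * (p + 1) ^ 2 * s + (p + 1) ^ 2 * s := by ring
    omega
  calc 3000 * (p + 1) * (s + MM p) ≤ 3000 * (p + 1) * (37 * (p + 1) ^ 2 * s) := Nat.mul_le_mul_left _ h2
    _ = 111000 * (p + 1) ^ 3 * s := by ring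

/-- the junk is of smaller order than the number of vertices -/
theorem Jk_small (A : ℕ) : ∃ N : ℕ, ∀ n ≥ N, A * Jk (Nat.sqrt n + 1) (Nat.log 2 n + 2) ≤ n := by
  obtain ⟨j0, hj0⟩ := cube_le_pow (A * 222000 * 64)
  refine ⟨2 ^ (2 * j0 + 1), fun n hn => ?_⟩
  have hn0 : n ≠ 0 := by
    have : 0 < 2 ^ (2 * j0 + 1) := by positivity
    omega
  have hk : 2 * j0 + 1 ≤ Nat.log 2 n := Nat.le_log_of_pow_le (by norm_num) hn
  generalize hkk : Nat.log 2 n = k at hk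
  have h1 : 2 ^ (k / 2) ≤ Nat.sqrt n := by
    rw [Nat.le_sqrt]
    calc 2 ^ (k / 2) * 2 ^ (k / 2) = 2 ^ (k / 2 + k / 2) := by rw [pow_add]
      _ ≤ 2 ^ k := Nat.pow_le_pow_right (by norm_num) (by omega)
      _ ≤ n := by rw [← hkk]; exact Nat.pow_log_le_self 2 hn0
  have h2 := hj0 (k / 2) (by omega)
  have h3 : A * 222000 * (k + 3) ^ 3 ≤ Nat.sqrt n := by
    have h4 : (k + 3) ^ 3 ≤ (4 * (k / 2 + 1)) ^ 3 := Nat.pow_le_pow_left (by omega) 3
    calc A * 222000 * (k + 3) ^ 3 ≤ A * 222000 * (4 * (k / 2 + 1)) ^ 3 := Nat.mul_le_mul_left _ h4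
      _ = A * 222000 * 64 * (k / 2 + 1) ^ 3 := by ring
      _ ≤ 2 ^ (k / 2) := h2
      _ ≤ Nat.sqrt n := h1
  have h5 : 1 ≤ Nat.sqrt n := le_trans (Nat.one_le_two_pow) h1
  have h6 := Jk_le (s := Nat.sqrt n + 1) (p := k + 2) (by omega)
  calc A * Jk (Nat.sqrt n + 1) (k + 2) ≤ A * (111000 * (k + 2 + 1) ^ 3 * (Nat.sqrt n + 1)) := Nat.mul_le_mul_left _ h6
    _ ≤ A * (111000 * (k + 2 + 1) ^ 3 * (2 * Nat.sqrt n)) :=
        Nat.mul_le_mul_left _ (Nat.mul_le_mul_left _ (by omega))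
    _ = (A * 222000 * (k + 3) ^ 3) * Nat.sqrt n := by ring
    _ ≤ Nat.sqrt n * Nat.sqrt n := Nat.mul_le_mul_right _ h3
    _ ≤ n := Nat.sqrt_le n

/-- (E1) -/
theorem exists_q : ∃ q : ℕ → ℕ, (∀ s, q s + 1 ≤ q (s + 1)) ∧ (∃ C, ∀ m, q m ≤ m + C) ∧
    ∀ a b c n : ℕ, b ≤ a → 2 * c + 1 ≤ a → q (a + b + 1) ≤ n →
      (1 ≤ b → q b + Jk (Nat.sqrt n + 1) (Nat.log 2 n + 2) ≤ n) ∧
      q c + Jk (Nat.sqrt n + 1) (Nat.log 2 n + 2) + b + 1 ≤ n := by
  obtain ⟨N1, hN1⟩ := Jk_small 16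
  obtain ⟨N2, hN2⟩ := Jk_small (4 * (N1 + 2))
  obtain ⟨K, hK⟩ : ∃ K, K = N1 + 2 := ⟨_, rfl⟩
  rw [← hK] at hN2
  obtain ⟨M0, hM0⟩ : ∃ M0, M0 = N2 + 1 := ⟨_, rfl⟩
  obtain ⟨D, hD⟩ : ∃ D, D = (K - 1) * M0 := ⟨_, rfl⟩
  have hKD : K * M0 = D + M0 := by
    obtain ⟨K', rfl⟩ : ∃ K', K = K' + 1 := ⟨K - 1, by omega⟩
    rw [hD, Nat.add_sub_cancel]
    ring
  refine ⟨fun m => min (K * m) (m + D), fun s => ?_, ⟨D, fun m => min_le_right _ _⟩, ?_⟩
  · have h1 : K * (s + 1) = K * s + K := by ring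
    show min (K * s) (s + D) + 1 ≤ min (K * (s + 1)) (s + 1 + D)
    rw [h1]
    omega
  · intro a b c n hba hca hn
    have e1 : K * (a + b + 1) = K * a + K * b + K := by ring
    have hb : 2 * b ≤ K * b := Nat.mul_le_mul_right b (by omega)
    have hKba : K * b ≤ K * a := Nat.mul_le_mul_left K hba
    have hKca : 2 * (K * c) + K ≤ K * a := by
      calc 2 * (K * c) + K = K * (2 * c + 1) := by ring
        _ ≤ K * a := Nat.mul_le_mul_left K hca
    simp only at hn ⊢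
    rcases Nat.le_total (a + b + 1) M0 with hm | hm
    · -- the linear regime
      have h1 : K * (a + b + 1) ≤ a + b + 1 + D := by
        obtain ⟨K', rfl⟩ : ∃ K', K = K' + 1 := ⟨K - 1, by omega⟩
        have h2 : K' * (a + b + 1) ≤ K' * M0 := Nat.mul_le_mul_left K' hm
        have h3 : (K' + 1) * (a + b + 1) = K' * (a + b + 1) + (a + b + 1) := by ring
        rw [hD, Nat.add_sub_cancel, h3]
        omega
      rw [min_eq_left h1] at hn
      have h2 : N1 ≤ n := by omega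
      have h3 := hN1 n h2
      refine ⟨fun hb1 => ?_, ?_⟩
      · have h4 := min_le_left (K * b) (b + D)
        omega
      · have h4 := min_le_left (K * c) (c + D)
        omega
    · -- the additive regime
      have h1 : a + b + 1 + D ≤ K * (a + b + 1) := by
        obtain ⟨K', rfl⟩ : ∃ K', K = K' + 1 := ⟨K - 1, by omega⟩
        have h2 : K' * M0 ≤ K' * (a + b + 1) := Nat.mul_le_mul_left K' hm
        have h3 : (K' + 1) * (a + b + 1) = K' * (a + b + 1) + (a + b + 1) := by ring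
        rw [hD, Nat.add_sub_cancel, h3]
        omega
      rw [min_eq_right h1] at hn
      have hM : M0 ≤ K * M0 := Nat.le_mul_of_pos_left _ (by omega)
      have h2 : N2 ≤ n := by omega
      have h3 := hN2 n h2
      generalize Jk (Nat.sqrt n + 1) (Nat.log 2 n + 2) = J at h3 ⊢
      have h5 : 4 * K * (a + b + 1 + D) ≤ 4 * K * n := Nat.mul_le_mul_left _ hn
      -- it suffices to multiply by `4 K`
      have key : ∀ w : ℕ, 4 * w ≤ 3 * (a + b + 1) + 1 → w + D + J ≤ n := by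
        intro w hw
        by_contra hcon
        have h6 : n + 1 ≤ w + D + J := by omega
        have h7 : 4 * K * (n + 1) ≤ 4 * K * (w + D + J) := Nat.mul_le_mul_left _ h6
        have h8 : K * (4 * w) ≤ K * (3 * (a + b + 1) + 1) := Nat.mul_le_mul_left _ hw
        obtain ⟨d, hd⟩ := Nat.exists_eq_add_of_le hn
        subst hd
        nlinarith
      refine ⟨fun hb1 => ?_, ?_⟩
      · have h4 := min_le_right (K * b) (b + D)
        have h6 := key b (by omega)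
        omega
      · have h4 := min_le_right (K * c) (c + D)
        have h6 := key (c + b + 1) (by omega)
        omega

end BC36
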