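import Pool.Agent.BC36.Defs

/-!
# Auxiliary lemmas for the case analysis
-/

namespace BC36
open Finset AE32

variable {V : Type*} [DecidableEq V] {R : V → V → Prop}

theorem q_add {q : ℕ → ℕ} (hq : ∀ s, q s + 1 ≤ q (s + 1)) (a b : ℕ) : q a + b ≤ q (a + b) := by
  induction b with
  | zero => simp
  | succ b ih =>
    have h1 := hq (a + b)
    rw [← add_assoc a b 1]
    omega

theorem q_mono {q : ℕ → ℕ} (hq : ∀ s, q s + 1 ≤ q (s + 1)) {a b : ℕ} (h : a ≤ b) : q a ≤ q b := by
  obtain ⟨c, rfl⟩ := Nat.exists_eq_add_of_le h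
  have := q_add hq a c
  omega

/-- dominators of exceptional vertices -/
theorem exc_sets {S Z : Finset V} (hZ : ∀ z ∈ Z, 1 ≤ (iN R S z).card) :
    ∃ HE : Finset V, HE.card ≤ 2 * Z.card ∧ (∀ w ∈ HE, ∃ z ∈ Z, w ∈ iN R S z) ∧
      ∀ z ∈ Z, 1 ≤ (iN R HE z).card ∧ (2 ≤ (iN R S z).card → 2 ≤ (iN R HE z).card) := by
  classical
  have h1 : ∀ z, ∃ D : Finset V, D ⊆ iN R S z ∧ D.card ≤ 2 ∧ (z ∈ Z → 1 ≤ D.card ∧ (2 ≤ (iN R S z).card → 2 ≤ D.card)) := by
    intro z
    by_cases h2 : 2 ≤ (iN R S z).card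
    · obtain ⟨D, hD, hc⟩ := exists_subset_card_eq h2
      exact ⟨D, hD, by omega, fun _ => ⟨by omega, fun _ => by omega⟩⟩
    · exact ⟨iN R S z, Subset.rfl, by omega, fun hz => ⟨hZ z hz, fun h => h⟩⟩
  choose D hD1 hD2 hD3 using h1
  refine ⟨Z.biUnion D, ?_, ?_, ?_⟩
  · calc (Z.biUnion D).card ≤ ∑ z ∈ Z, (D z).card := card_biUnion_le
      _ ≤ ∑ z ∈ Z, 2 := sum_le_sum fun z _ => hD2 z
      _ = 2 * Z.card := by rw [sum_const, smul_eq_mul, mul_comm]
  · intro w hw
    obtain ⟨z, hz, hw⟩ := mem_biUnion.1 hw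
    exact ⟨z, hz, hD1 z hw⟩
  · intro z hz
    have h2 : D z ⊆ iN R (Z.biUnion D) z := by
      intro w hw
      exact mem_iN.2 ⟨mem_biUnion.2 ⟨z, hz, hw⟩, (mem_iN.1 (hD1 z hw)).2⟩
    have h3 := card_le_card h2
    obtain ⟨h4, h5⟩ := hD3 z hz
    exact ⟨by omega, fun h => by have := h5 h; omega⟩

theorem lam_node {A B : BT} (hB0 : B ≠ .nil) (hBA : B.size ≤ A.size) : lam (.node A B) = 1 + lam B := by
  have h1 : 1 ≤ B.size := by
    cases B with
    | nil => exact absurd rfl hB0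
    | node l r => simp only [BT.size]; omega
  rw [lam, if_neg (by omega), if_pos hBA]

theorem size_pos {B : BT} (hB0 : B ≠ .nil) : 1 ≤ B.size := by
  cases B with
  | nil => exact absurd rfl hB0
  | node l r => simp only [BT.size]; omega

theorem lam_pos {B : BT} (h : 2 ≤ B.size) : 1 ≤ lam B := by
  cases B with
  | nil => simp [BT.size] at h
  | node l r =>
    simp only [BT.size] at h
    rw [lam, if_neg (by omega)]
    omega

theorem size_one {B : BT} (h : B.size = 1) : B = .node .nil .nil := by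
  cases B with
  | nil => simp [BT.size] at h
  | node l r =>
    simp only [BT.size] at h
    cases l with
    | nil =>
      cases r with
      | nil => rfl
      | node a b => simp only [BT.size] at h; omega
    | node a b => simp only [BT.size] at h; omega

theorem lam_leaf : lam (.node .nil .nil) = 0 := by
  simp [lam, BT.size]

theorem emb_leaf {N : V → Prop} {x : V} (hx : N x) : Emb R (.node .nil .nil) N {x} :=
  ⟨x, ∅, ∅, hx, by simp, by simp, by simp, by simp, rfl, rfl⟩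

end BC36
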