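import Pool.Agent.BC36.Count
import Pool.Agent.BC36.Pre

/-!
# Splitting
-/

namespace BC36
open Finset AE32

variable {V : Type*} [DecidableEq V] {R : V → V → Prop}

theorem SLf_core (hT : Tour R) {q : ℕ → ℕ} (hq : ∀ s, q s + 1 ≤ q (s + 1)) {g m : BT}
    (hP : ∀ T : BT, T.size < g.size + m.size + 1 → PP R q T) {Y H Q B : Finset V} {k z : V} (hk : k ∈ Y)
    (hA : q (g.size + m.size + 1) ≤ Y.card) (hH : H ⊆ oN R Y k)
    (hH1 : ∀ u ∈ iN R Y k, 1 ≤ (iN R H u).card ∧ (u ≠ z → 2 ≤ (iN R H u).card))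
    (hQ : Q ⊆ oN R Y k) (hQH : Disjoint Q H) (hQ1 : ∀ u ∈ iN R Y k, u ∉ B → 2 ≤ (iN R Q u).card)
    (hc : q m.size + 1 + H.card + B.card ≤ Y.card) :
    ∃ U ⊆ Y, Rt R (.node g m) k U := by
  classical
  have hcard : (oN R Y k).card + (iN R Y k).card = (Y.erase k).card := by
    have h1 := card_oN_add_iN hT (J := Y.erase k) (a := k) (by simp)
    have h2 : oN R (Y.erase k) k = oN R Y k := by
      ext u
      simp only [mem_oN, mem_erase]
      constructor
      · exact fun h => ⟨h.1.2, h.2⟩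
      · refine fun h => ⟨⟨?_, h.1⟩, h.2⟩
        rintro rfl
        exact hT.irr _ h.2
    have h3 : iN R (Y.erase k) k = iN R Y k := by
      ext u
      simp only [mem_iN, mem_erase]
      constructor
      · exact fun h => ⟨h.1.2, h.2⟩
      · refine fun h => ⟨⟨?_, h.1⟩, h.2⟩
        rintro rfl
        exact hT.irr _ h.2
    rw [h2, h3] at h1
    exact h1
  have hYk : (Y.erase k).card + 1 = Y.card := card_erase_add_one hk
  -- the piece for the smaller tree
  obtain ⟨P, hPY, hPH, hPc, hPG⟩ : ∃ P ⊆ Y.erase k, Disjoint P H ∧ P.card = q m.size ∧ Good R (oN R P k) P := by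
    rcases Nat.lt_or_ge (oN R Y k \ H).card (q m.size) with h | h
    · have h1 : (oN R Y k \ H).card + H.card = (oN R Y k).card := card_sdiff_add_card_eq_card hH
      have h2 : (iN R Y k).card ≤ (iN R Y k \ B).card + B.card := by
        have := card_le_card (show iN R Y k ⊆ (iN R Y k \ B) ∪ B by
          intro u hu
          by_cases hb : u ∈ B
          · exact mem_union_right _ hb
          · exact mem_union_left _ (mem_sdiff.2 ⟨hu, hb⟩))
        exact this.trans (card_union_le _ _)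
      obtain ⟨I, hI, hIc⟩ := exists_subset_card_eq (s := iN R Y k \ B) (n := q m.size - (oN R Y k \ H).card) (by omega)
      have hdis : Disjoint (oN R Y k \ H) I := by
        rw [disjoint_left]
        intro u hu hu'
        exact hT.asym k u (mem_oN.1 (mem_sdiff.1 hu).1).2 (mem_iN.1 (mem_sdiff.1 (hI hu')).1).2
      refine ⟨(oN R Y k \ H) ∪ I, ?_, ?_, ?_, ?_⟩
      · intro u hu
        rw [mem_erase]
        rcases mem_union.1 hu with hu | hu
        · have h3 := mem_oN.1 (mem_sdiff.1 hu).1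
          refine ⟨?_, h3.1⟩
          rintro rfl
          exact hT.irr _ h3.2
        · have h3 := mem_iN.1 (mem_sdiff.1 (hI hu)).1
          refine ⟨?_, h3.1⟩
          rintro rfl
          exact hT.irr _ h3.2
      · rw [disjoint_union_left]
        refine ⟨sdiff_disjoint, disjoint_left.2 fun u hu hu' => ?_⟩
        exact hT.asym k u (mem_oN.1 (hH hu')).2 (mem_iN.1 (mem_sdiff.1 (hI hu)).1).2
      · rw [card_union_of_disjoint hdis, hIc]
        omega
      · refine ⟨oN_sub, k, fun u hu hS => ?_⟩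
        have h3 : u ∈ I := by
          rcases mem_union.1 hu with hu' | hu'
          · exact absurd (mem_oN.2 ⟨hu, (mem_oN.1 (mem_sdiff.1 hu').1).2⟩) hS
          · exact hu'
        have h4 := mem_sdiff.1 (hI h3)
        have h5 := hQ1 u h4.1 h4.2
        have h6 : Q ⊆ oN R ((oN R Y k \ H) ∪ I) k := by
          intro w hw
          have h7 := hQ hw
          exact mem_oN.2 ⟨mem_union_left _ (mem_sdiff.2 ⟨h7, fun h8 => disjoint_left.1 hQH hw h8⟩), (mem_oN.1 h7).2⟩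
        have h7 := card_le_card (iN_mono (R := R) h6 u)
        exact ⟨by omega, fun _ => by omega⟩
    · obtain ⟨P, hP1, hP2⟩ := exists_subset_card_eq h
      have h3 : ∀ u ∈ P, u ∈ Y ∧ R k u ∧ u ∉ H := fun u hu => by
        have := mem_sdiff.1 (hP1 hu)
        exact ⟨(mem_oN.1 this.1).1, (mem_oN.1 this.1).2, this.2⟩
      refine ⟨P, ?_, ?_, hP2, oN_sub, k, fun u hu hS => absurd (mem_oN.2 ⟨hu, (h3 u hu).2.1⟩) hS⟩
      · intro u hu
        refine mem_erase.2 ⟨?_, (h3 u hu).1⟩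
        rintro rfl
        exact hT.irr _ (h3 _ hu).2.1
      · exact disjoint_left.2 fun u hu => (h3 u hu).2.2
  obtain ⟨W, hWP, hWE⟩ := hP m (by omega) (oN R P k) P (by omega) hPG
  have hWc := hWE.card
  set Y' : Finset V := (Y.erase k) \ W with hY'
  have hY'c : Y'.card + W.card = (Y.erase k).card := card_sdiff_add_card_eq_card (hWP.trans hPY)
  have hG : Good R (oN R Y' k) Y' := by
    refine ⟨oN_sub, z, fun u hu hS => ?_⟩
    have h1 := mem_erase.1 (mem_sdiff.1 hu).1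
    have h2 : R u k := (hT.tot u k h1.1).resolve_right fun h => hS (mem_oN.2 ⟨hu, h⟩)
    obtain ⟨h3, h4⟩ := hH1 u (mem_iN.2 ⟨h1.2, h2⟩)
    have h5 : H ⊆ oN R Y' k := by
      intro w hw
      have h6 := mem_oN.1 (hH hw)
      refine mem_oN.2 ⟨mem_sdiff.2 ⟨mem_erase.2 ⟨?_, h6.1⟩, fun h7 => disjoint_left.1 hPH (hWP h7) hw⟩, h6.2⟩
      rintro rfl
      exact hT.irr _ h6.2
    have h6 := card_le_card (iN_mono (R := R) h5 u)
    exact ⟨by omega, fun h => by have := h4 h; omega⟩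
  have hqm : q g.size + (m.size + 1) ≤ q (g.size + m.size + 1) := q_add hq g.size (m.size + 1)
  obtain ⟨U, hU, hUE⟩ := hP g (by omega) (oN R Y' k) Y' (by omega) hG
  refine ⟨insert k (U ∪ W), ?_, rt_mk (hUE.mono fun y hy => (mem_oN.1 hy).2) (hWE.mono fun y hy => (mem_oN.1 hy).2)
    ?_ ?_ ?_⟩
  · intro u hu
    simp only [mem_insert, mem_union] at hu
    rcases hu with rfl | h | h
    · exact hk
    · exact (mem_erase.1 (mem_sdiff.1 (hU h)).1).2
    · exact (mem_erase.1 (hPY (hWP h))).2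
  · exact fun h => absurd rfl (mem_erase.1 (mem_sdiff.1 (hU h)).1).1
  · exact fun h => absurd rfl (mem_erase.1 (hPY (hWP h))).1
  · exact disjoint_left.2 fun u hu hu' => (mem_sdiff.1 (hU hu)).2 hu'

/-- (B1) the splitting lemma -/
theorem SLf (hT : Tour R) {q : ℕ → ℕ} (hq : ∀ s, q s + 1 ≤ q (s + 1)) {A : BT} (hA0 : A ≠ .nil)
    (hP : ∀ T : BT, T.size < A.size → PP R q T) {Y H Q B : Finset V} {k z : V} (hk : k ∈ Y)
    (hA : q A.size ≤ Y.card) (hH : H ⊆ oN R Y k)
    (hH1 : ∀ u ∈ iN R Y k, 1 ≤ (iN R H u).card ∧ (u ≠ z → 2 ≤ (iN R H u).card))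
    (hQ : Q ⊆ oN R Y k) (hQH : Disjoint Q H) (hQ1 : ∀ u ∈ iN R Y k, u ∉ B → 2 ≤ (iN R Q u).card)
    (hc : ∀ l r, A = .node l r → q (min l.size r.size) + 1 + H.card + B.card ≤ Y.card) :
    ∃ U ⊆ Y, Rt R A k U := by
  cases A with
  | nil => exact absurd rfl hA0
  | node l r =>
    have hc' := hc l r rfl
    rcases Nat.le_total r.size l.size with h | h
    · rw [min_eq_right h] at hc'
      exact SLf_core hT hq (fun T hT' => hP T hT') hk hA hH hH1 hQ hQH hQ1 hc'
    · rw [min_eq_left h] at hc'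
      obtain ⟨U, hU, hE⟩ := SLf_core hT hq (g := r) (m := l) (fun T hT' => hP T (by simp only [BT.size]; omega)) hk
        (by rw [add_comm r.size l.size]; exact hA) hH hH1 hQ hQH hQ1 hc'
      exact ⟨U, hU, Emb.swap hE⟩

/-- in-neighbours of a vertex of maximum out-degree -/
theorem top_dom (hT : Tour R) {X : Finset V} {k : V} (hk : k ∈ X) (hmax : ∀ u ∈ X, dg R X u ≤ dg R X k) :
    ∃ z, ∀ u ∈ iN R X k, 1 ≤ (iN R (oN R X k) u).card ∧ (u ≠ z → 2 ≤ (iN R (oN R X k) u).card) := by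
  have h1 : ∀ u ∈ iN R X k, 1 + (oN R (iN R X k) u).card ≤ (iN R (oN R X k) u).card := by
    intro u hu
    obtain ⟨h2, h3⟩ := mem_iN.1 hu
    have h4 := ident hT hk h2 h3
    have h5 := hmax u h2
    omega
  by_cases h : ∃ z ∈ iN R X k, oN R (iN R X k) z = ∅
  · obtain ⟨z, hz, hz'⟩ := h
    refine ⟨z, fun u hu => ?_⟩
    have h2 := h1 u hu
    refine ⟨by omega, fun huz => ?_⟩
    have h3 : R u z := (hT.tot u z huz).resolve_right fun h => by
      have h4 : u ∈ oN R (iN R X k) z := mem_oN.2 ⟨hu, h⟩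
      rw [hz'] at h4
      simp at h4
    have h4 : 0 < (oN R (iN R X k) u).card := card_pos.2 ⟨z, mem_oN.2 ⟨hz, h3⟩⟩
    omega
  · push Not at h
    refine ⟨k, fun u hu => ?_⟩
    have h2 := h1 u hu
    have h3 : 0 < (oN R (iN R X k) u).card := card_pos.2 (h u hu)
    exact ⟨by omega, fun _ => by omega⟩

/-- (B2) a vertex of maximum out-degree is a root -/
theorem topRoot (hT : Tour R) {q : ℕ → ℕ} (hq : ∀ s, q s + 1 ≤ q (s + 1)) {A : BT} (hA0 : A ≠ .nil)
    (hP : ∀ T : BT, T.size < A.size → PP R q T) {X : Finset V} {k : V} {s : ℕ} (hk : k ∈ X)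
    (hmax : ∀ u ∈ X, dg R X u ≤ dg R X k) (hs : X.card ≤ s * s) (hs1 : 1 ≤ s) (hA : q A.size ≤ X.card)
    (hc : ∀ l r, A = .node l r → q (min l.size r.size) + Jk s 1 ≤ X.card) :
    ∃ U ⊆ X, Rt R A k U := by
  classical
  have hJ : Fr R X k 0 (iN R X k) := ⟨Subset.rfl, fun u hu => hmax u (mem_iN.1 hu).1⟩
  obtain ⟨z, hz⟩ := top_dom hT hk hmax
  obtain ⟨H, hH, hHc, hH1⟩ := lemH hT hk hJ (O := oN R X k) (l := 0) (s := s) Subset.rfl
    (by rw [sdiff_self]; simp) hs hs1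
  obtain ⟨Q, hQ, hQc, B, hB, hBc, hQ1⟩ := lemR hT hk hJ (O := oN R X k \ H) (l := 30 * s) (s := s) sdiff_subset
    ((card_le_card (show oN R X k \ (oN R X k \ H) ⊆ H by
      intro u hu
      rw [mem_sdiff] at hu
      by_contra h
      exact hu.2 (mem_sdiff.2 ⟨hu.1, h⟩))).trans (by omega)) hs hs1
  refine SLf hT hq hA0 hP (Y := X) (H := H) (Q := Q) (B := B) (z := z) hk hA hH (fun u hu => ?_)
    (hQ.trans sdiff_subset) (disjoint_left.2 fun u hu => (mem_sdiff.1 (hQ hu)).2) hQ1 (fun l r hlr => ?_)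
  · obtain ⟨h1, h2⟩ := hz u hu
    obtain ⟨h3, h4⟩ := hH1 u hu
    exact ⟨h3 h1, fun h => h4 (h2 h)⟩
  · have h1 := hc l r hlr
    have h2 : 6000 * s ≤ Jk s 1 := by
      unfold Jk
      have : 0 ≤ MM 1 := Nat.zero_le _
      nlinarith
    omega

/-- (B3) unary trees -/
theorem step_un (hT : Tour R) {q : ℕ → ℕ} (hq : ∀ s, q s + 1 ≤ q (s + 1)) {A : BT}
    (hP : ∀ T : BT, T.size ≤ A.size → PP R q T) {S X : Finset V} {s : ℕ} (hS : Good R S X)
    (hA : q (A.size + 1) ≤ X.card) (hs : X.card ≤ s * s) (hs1 : 1 ≤ s)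
    (hc : ∀ l r, A = .node l r → q (min l.size r.size) + Jk s 1 + 1 ≤ X.card) :
    ∃ U ⊆ X, Emb R (.node A .nil) (fun y => y ∈ S) U := by
  classical
  obtain ⟨hSX, z0, hz0⟩ := hS
  have hX0 : X.Nonempty := card_pos.1 (by have := hq A.size; omega)
  have key : ∀ v ∈ X, v ∈ S → ∀ U ⊆ X.erase v, Emb R A (R v) U → ∃ U ⊆ X, Emb R (.node A .nil) (fun y => y ∈ S) U := by
    intro v hv hvS U hU hE
    refine ⟨insert v (U ∪ ∅), ?_, (rt_mk hE (show Emb R .nil (R v) ∅ from rfl) ?_ (by simp) (disjoint_empty_right _)).emb hvS⟩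
    · intro u hu
      simp only [mem_insert, mem_union, notMem_empty, or_false] at hu
      rcases hu with rfl | h
      · exact hv
      · exact (mem_erase.1 (hU h)).2
    · exact fun h => absurd rfl (mem_erase.1 (hU h)).1
  obtain ⟨k, hk, hmax⟩ := exists_max_image X (fun u => dg R X u) hX0
  by_cases hkS : k ∈ S
  · obtain ⟨z, hz⟩ := top_dom hT hk hmax
    have hG : Good R (oN R X k) (X.erase k) := by
      refine ⟨fun u hu => ?_, z, fun u hu hS' => ?_⟩
      · have h1 := mem_oN.1 hu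
        refine mem_erase.2 ⟨?_, h1.1⟩
        rintro rfl
        exact hT.irr _ h1.2
      · have h1 := mem_erase.1 hu
        exact hz u (mem_iN.2 ⟨h1.2, (hT.tot u k h1.1).resolve_right fun h => hS' (mem_oN.2 ⟨h1.2, h⟩)⟩)
    have h1 := hq A.size
    have h2 : (X.erase k).card + 1 = X.card := card_erase_add_one hk
    obtain ⟨U, hU, hE⟩ := hP A le_rfl (oN R X k) (X.erase k) (by omega) hG
    exact key k hk hkS U hU (hE.mono fun y hy => (mem_oN.1 hy).2)
  · obtain ⟨v, hv⟩ := card_pos.1 (hz0 k hk hkS).1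
    obtain ⟨hvS, hvk⟩ := mem_iN.1 hv
    have hvX := hSX hvS
    by_cases hA0 : A = .nil
    · subst hA0
      exact key v hvX hvS ∅ (empty_subset _) rfl
    · have hkX' : k ∈ X.erase v := mem_erase.2 ⟨fun h => hT.irr v (by rw [h] at hvk; exact hvk), hk⟩
      have h2 : (X.erase v).card + 1 = X.card := card_erase_add_one hvX
      have hdk : dg R (X.erase v) k = dg R X k := by
        unfold dg
        congr 1
        ext u
        simp only [mem_oN, mem_erase]
        constructor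
        · exact fun h => ⟨h.1.2, h.2⟩
        · refine fun h => ⟨⟨?_, h.1⟩, h.2⟩
          rintro rfl
          exact hT.asym _ _ hvk h.2
      have hmax' : ∀ u ∈ X.erase v, dg R (X.erase v) u ≤ dg R (X.erase v) k := by
        intro u hu
        rw [hdk]
        exact (card_le_card (oN_mono (erase_subset v X) u)).trans (hmax u (mem_erase.1 hu).2)
      have h1 := hq A.size
      obtain ⟨U, hU, hE⟩ := topRoot hT hq hA0 (fun T hT' => hP T hT'.le) hkX' hmax' (by omega) hs1 (by omega)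
        (fun l r hlr => by have := hc l r hlr; omega)
      exact key v hvX hvS U hU (hE.under hvk)

omit [DecidableEq V] in
open scoped Classical in
/-- the fresh in-neighbours and the exceptional vertices of a nearly maximal vertex -/
theorem hst_split {X : Finset V} {y : V} {M e : ℕ} (hy : Hst R X M e y) :
    ∃ J Z : Finset V, Fr R X y e J ∧ Z.card ≤ M ∧ Z ⊆ iN R X y ∧ ∀ u ∈ iN R X y, u ∉ Z → u ∈ J := by
  refine ⟨(iN R X y).filter (fun u => dg R X u ≤ dg R X y + e),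
    (iN R X y).filter (fun u => dg R X y + e < dg R X u), ⟨filter_subset _ _, fun u hu => (mem_filter.1 hu).2⟩, ?_,
    filter_subset _ _, ?_⟩
  · refine (card_le_card ?_).trans hy.2
    intro u hu
    rw [mem_filter] at hu ⊢
    exact ⟨iN_sub hu.1, hu.2⟩
  · intro u hu hZ
    rw [mem_filter] at hZ ⊢
    exact ⟨hu, Nat.le_of_not_lt fun h => hZ ⟨hu, h⟩⟩

/-- (B4) hosts -/
theorem HL (hT : Tour R) {q : ℕ → ℕ} (hq : ∀ s, q s + 1 ≤ q (s + 1)) {B : BT} (hB0 : B ≠ .nil)
    (hP : ∀ T : BT, T.size < B.size → PP R q T) {X F : Finset V} {y : V} {M e s f : ℕ} (hy : Hst R X M e y)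
    (hs : X.card ≤ s * s) (hs1 : 1 ≤ s) (hyF : y ∉ F) (hF : F.card ≤ f) :
    ∃ Q ⊆ X, Disjoint Q F ∧ y ∉ Q ∧ Q.card ≤ 4 * s ∧ ∀ W ⊆ X, y ∈ W → Q ⊆ W →
      q B.size + (M + 16 * (e + f) + 60 * s) + (X \ W).card ≤ X.card → ∃ U ⊆ W, Rt R B y U := by
  classical
  obtain ⟨J, Z, hJ, hZ, hZi, hZJ⟩ := hst_split hy
  have hyX : y ∈ X := hy.1
  have hsub : ∀ G : Finset V, oN R X y \ (oN R X y \ G) ⊆ G := by
    intro G u hu
    rw [mem_sdiff] at hu
    by_contra h
    exact hu.2 (mem_sdiff.2 ⟨hu.1, h⟩)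
  obtain ⟨Q1, hQ1, hQ1c, B1, hB1, hB1c, hQB1⟩ := lemR hT hyX hJ (O := oN R X y \ F) (l := f) (s := s)
    sdiff_subset ((card_le_card (hsub F)).trans hF) hs hs1
  obtain ⟨Q2, hQ2, hQ2c, B2, hB2, hB2c, hQB2⟩ := lemR hT hyX hJ (O := oN R X y \ (F ∪ Q1)) (l := f + 2 * s) (s := s)
    sdiff_subset ((card_le_card (hsub (F ∪ Q1))).trans ((card_union_le F Q1).trans (by omega))) hs hs1
  have h1 : ∀ u ∈ Q1, u ∈ X ∧ R y u ∧ u ∉ F := by
    intro u hu
    have := mem_sdiff.1 (hQ1 hu)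
    exact ⟨(mem_oN.1 this.1).1, (mem_oN.1 this.1).2, this.2⟩
  have h2 : ∀ u ∈ Q2, u ∈ X ∧ R y u ∧ u ∉ F ∧ u ∉ Q1 := by
    intro u hu
    have := mem_sdiff.1 (hQ2 hu)
    exact ⟨(mem_oN.1 this.1).1, (mem_oN.1 this.1).2, fun h => this.2 (mem_union_left _ h),
      fun h => this.2 (mem_union_right _ h)⟩
  refine ⟨Q1 ∪ Q2, ?_, ?_, ?_, ?_, ?_⟩
  · exact union_subset (fun u hu => (h1 u hu).1) (fun u hu => (h2 u hu).1)
  · rw [disjoint_union_left, disjoint_left, disjoint_left]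
    exact ⟨fun u hu => (h1 u hu).2.2, fun u hu => (h2 u hu).2.2.1⟩
  · rw [mem_union]
    rintro (h | h)
    · exact hT.irr y (h1 y h).2.1
    · exact hT.irr y (h2 y h).2.1
  · exact (card_union_le Q1 Q2).trans (by omega)
  · intro W hW hyW hQW hc
    set Y : Finset V := W \ (Z ∪ (B1 ∪ B2)) with hY
    have hbad : ∀ u ∈ Z ∪ (B1 ∪ B2), R u y := by
      intro u hu
      simp only [mem_union] at hu
      rcases hu with h | h | h
      · exact (mem_iN.1 (hZi h)).2
      · exact (mem_iN.1 (hJ.1 (hB1 h))).2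
      · exact (mem_iN.1 (hJ.1 (hB2 h))).2
    have hYm : ∀ u ∈ W, ¬ R u y → u ∈ Y := fun u hu h => mem_sdiff.2 ⟨hu, fun h' => h (hbad u h')⟩
    have hYc : X.card ≤ Y.card + (X \ W).card + (M + 16 * (e + f) + 40 * s) := by
      have h3 : X ⊆ Y ∪ ((X \ W) ∪ (Z ∪ (B1 ∪ B2))) := by
        intro u hu
        by_cases hw : u ∈ W
        · by_cases hb : u ∈ Z ∪ (B1 ∪ B2)
          · exact mem_union_right _ (mem_union_right _ hb)
          · exact mem_union_left _ (mem_sdiff.2 ⟨hw, hb⟩)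
        · exact mem_union_right _ (mem_union_left _ (mem_sdiff.2 ⟨hu, hw⟩))
      have h4 := card_le_card h3
      have h5 := card_union_le Y ((X \ W) ∪ (Z ∪ (B1 ∪ B2)))
      have h6 := card_union_le (X \ W) (Z ∪ (B1 ∪ B2))
      have h7 := card_union_le Z (B1 ∪ B2)
      have h8 := card_union_le B1 B2
      omega
    have hin : ∀ u ∈ iN R Y y, u ∈ J ∧ u ∉ B1 ∧ u ∉ B2 := by
      intro u hu
      obtain ⟨h3, h4⟩ := mem_iN.1 hu
      obtain ⟨h5, h6⟩ := mem_sdiff.1 h3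
      simp only [mem_union, not_or] at h6
      exact ⟨hZJ u (mem_iN.2 ⟨hW h5, h4⟩) h6.1, h6.2.1, h6.2.2⟩
    obtain ⟨U, hU, hE⟩ := SLf hT hq hB0 hP (Y := Y) (H := Q1) (Q := Q2) (B := ∅) (k := y) (z := y)
      (hYm y hyW (hT.irr y)) (by omega)
      (fun u hu => mem_oN.2 ⟨hYm u (hQW (mem_union_left _ hu)) (hT.asym y u (h1 u hu).2.1), (h1 u hu).2.1⟩)
      (fun u hu => by
        obtain ⟨h3, h4, h5⟩ := hin u hu
        have h6 := hQB1 u h3 h4
        exact ⟨by omega, fun _ => h6⟩)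
      (fun u hu => mem_oN.2 ⟨hYm u (hQW (mem_union_right _ hu)) (hT.asym y u (h2 u hu).2.1), (h2 u hu).2.1⟩)
      (disjoint_left.2 fun u hu => (h2 u hu).2.2.2)
      (fun u hu _ => by
        obtain ⟨h3, h4, h5⟩ := hin u hu
        exact hQB2 u h3 h5)
      (fun l r hB => by
        have h3 : q (min l.size r.size) ≤ q B.size := q_mono hq (by
          rw [hB]
          simp only [BT.size]
          omega)
        rw [card_empty]
        omega)
    exact ⟨U, hU.trans sdiff_subset, hE⟩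

/-- (B5) placing `B` below a strong root `v` (case (b)): `B` is rooted at some out-neighbour of `v`. -/
theorem HN (hT : Tour R) {q : ℕ → ℕ} {B : BT} (hP : PP R q B) {X F : Finset V} {v : V} {M e s f : ℕ}
    (hv : Hst R X M e v) (hs : X.card ≤ s * s) (hs1 : 1 ≤ s) (hvF : v ∈ F) (hF : F.card ≤ f)
    (hc : q B.size + (M + 16 * (e + f) + 60 * s) + f ≤ X.card) :
    ∃ U ⊆ X \ F, Emb R B (R v) U := by
  classical
  obtain ⟨J, Z, hJ, hZ, hZi, hZJ⟩ := hst_split hv
  have hsub : oN R X v \ (oN R X v \ F) ⊆ F := by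
    intro u hu
    rw [mem_sdiff] at hu
    by_contra h
    exact hu.2 (mem_sdiff.2 ⟨hu.1, h⟩)
  obtain ⟨Q1, hQ1, hQ1c, B1, hB1, hB1c, hQB1⟩ := lemR hT hv.1 hJ (O := oN R X v \ F) (l := f) (s := s)
    sdiff_subset ((card_le_card hsub).trans hF) hs hs1
  set Y : Finset V := X \ (F ∪ (Z ∪ B1)) with hY
  have hYc : X.card ≤ Y.card + f + (M + 8 * (e + f) + 12 * s) := by
    have h3 : X ⊆ Y ∪ (F ∪ (Z ∪ B1)) := by
      intro u hu
      by_cases hb : u ∈ F ∪ (Z ∪ B1)
      · exact mem_union_right _ hb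
      · exact mem_union_left _ (mem_sdiff.2 ⟨hu, hb⟩)
    have h4 := card_le_card h3
    have h5 := card_union_le Y (F ∪ (Z ∪ B1))
    have h6 := card_union_le F (Z ∪ B1)
    have h7 := card_union_le Z B1
    omega
  have hQY : Q1 ⊆ oN R Y v := by
    intro u hu
    obtain ⟨h3, h4⟩ := mem_sdiff.1 (hQ1 hu)
    obtain ⟨h5, h6⟩ := mem_oN.1 h3
    refine mem_oN.2 ⟨mem_sdiff.2 ⟨h5, ?_⟩, h6⟩
    simp only [mem_union]
    rintro (h | h | h)
    · exact h4 h
    · exact hT.asym v u h6 (mem_iN.1 (hZi h)).2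
    · exact hT.asym v u h6 (mem_iN.1 (hJ.1 (hB1 h))).2
  have hG : Good R (oN R Y v) Y := by
    refine ⟨oN_sub, v, fun u hu hS => ?_⟩
    obtain ⟨h3, h4⟩ := mem_sdiff.1 hu
    simp only [mem_union, not_or] at h4
    have huv : u ≠ v := by
      rintro rfl
      exact h4.1 hvF
    have h5 : R u v := (hT.tot u v huv).resolve_right fun h => hS (mem_oN.2 ⟨hu, h⟩)
    have h6 := hQB1 u (hZJ u (mem_iN.2 ⟨h3, h5⟩) h4.2.1) h4.2.2
    have h7 : (iN R Q1 u).card ≤ (iN R (oN R Y v) u).card := card_le_card (iN_mono hQY u)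
    exact ⟨by omega, fun _ => by omega⟩
  obtain ⟨U, hU, hE⟩ := hP (oN R Y v) Y (by omega) hG
  refine ⟨U, fun u hu => ?_, hE.mono fun y hy => (mem_oN.1 hy).2⟩
  obtain ⟨h3, h4⟩ := mem_sdiff.1 (hU hu)
  exact mem_sdiff.2 ⟨h3, fun h => h4 (mem_union_left _ h)⟩

end BC36
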